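import Pool.Agent.Work.MP_a793bb_nt.OrdM.DefsM

/-!
# The three sides

`rj j t E` is the radical of the part of the side `j` with exponents in `E`. Proofs. `LR_a, LR_b, LR_c`: `sameNum_a`, `sameNum_b`, `sameNum_c` and
`SameNum.LR_eq` in `Sides.lean`. `rj_sum`: `Rs_three_le` (`SmallRad.lean`; compare `zs_sum` in `RadK/CostK.lean`); `{p | 0 < kp p y ∧ _ ∈ univ} = Zp y`. `rj_add`: the
sets are disjoint with union (`Rs` of a finite set). `rj_high`: for `s = sOf j t`, the exponents in `1 + s` satisfy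
`E0 * LR (1 + s) {e | E0 ≤ e} ≤ LP (1 + s) univ ≤ hs s = hh t` (`LP_side_c`, `hs_sOf`). `rj_ge2`: the exponents `≥ 2` are `2, ..., E0 - 1` and the `e ≥ E0`.
-/

set_option autoImplicit false

namespace AbcOrdM

open Finset AbcRadK Pool.Agent.Work.MP_a793bb_nt Pool.Agent.Work.MP_a793bb_nt.BPlus
  NumberField IsDedekindDomain Height

variable {K : Type*} [Field K] [NumberField K]

/-- The radical of the part of the side `j` with exponents in `E`. -/
noncomputable def rj (j : Fin 3) (t : K) (E : Set ℕ) : ℝ := LR (side j t) E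

theorem LR_a {t : K} (h0 : t ≠ 0) (h1 : t ≠ 1) (j : Fin 3) (E : Set ℕ) :
    LR (sOf j t) E = rj (j + 1) t E :=
  (sameNum_a h0 h1 j).LR_eq E

theorem LR_b {t : K} (h0 : t ≠ 0) (h1 : t ≠ 1) (j : Fin 3) (E : Set ℕ) :
    LR (sOf j t)⁻¹ E = rj (j + 2) t E :=
  (sameNum_b h0 h1 j).LR_eq E

theorem LR_c {t : K} (h0 : t ≠ 0) (h1 : t ≠ 1) (j : Fin 3) (E : Set ℕ) :
    LR (1 + sOf j t) E = rj j t E :=
  (sameNum_c h0 h1 j).LR_eq E

theorem rj_nonneg (j : Fin 3) (t : K) (E : Set ℕ) : 0 ≤ rj j t E := Rs_nonneg _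

private lemma LR_univM {y : K} (hy : y ≠ 0) : LR y Set.univ = Rs (Zp y) := by
  unfold LR
  congr 1
  ext p
  simp only [Set.mem_univ, and_true, Set.mem_ofPred_eq, Zp]
  exact (av_lt_one_iff_kp p hy).symm

theorem rj_sum {t : K} (h0 : t ≠ 0) (h1 : t ≠ 1) :
    rj 0 t Set.univ + rj 1 t Set.univ + rj 2 t Set.univ ≤ Rs (Ip t) := by
  have h1' : 1 - t ≠ 0 := sub_ne_zero.mpr (Ne.symm h1)
  have e0 : rj 0 t Set.univ = Rs (Zp t) := LR_univM h0
  have e1 : rj 1 t Set.univ = Rs (Zp (1 - t)) := LR_univM h1'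
  have e2 : rj 2 t Set.univ = Rs (Zp t⁻¹) := LR_univM (inv_ne_zero h0)
  rw [e0, e1, e2]
  exact Rs_three_le h0 h1

theorem rj_add {t : K} (h0 : t ≠ 0) (h1 : t ≠ 1) (j : Fin 3) (E : Set ℕ) :
    rj j t E + rj j t Eᶜ = rj j t Set.univ := by
  classical
  have hy := side_ne_zero h0 h1 j
  unfold rj
  rw [LR_eq_sum hy, LR_eq_sum hy, LR_eq_sum hy, ← Finset.sum_add_distrib]
  refine Finset.sum_congr rfl fun p _ => ?_
  by_cases h2 : 0 < kp p (side j t)
  · by_cases h3 : (kp p (side j t)).toNat ∈ E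
    · simp [h2, h3]
    · simp [h2, h3]
  · simp [h2]

private lemma LR_highM {y : K} (hy : y ≠ 0) (E0 : ℕ) :
    (E0 : ℝ) * LR y {e | E0 ≤ e} ≤ LP y Set.univ := by
  classical
  have hT : ∀ p ∈ Zp y, p ∈ (finite_Zp hy).toFinset := fun p hp => by simpa using hp
  rw [LP_eq hy Set.univ _ hT, LR_eq_sum hy, Finset.mul_sum]
  refine Finset.sum_le_sum fun p _ => ?_
  by_cases h2 : 0 < kp p y ∧ (kp p y).toNat ∈ {e | E0 ≤ e}
  · rw [if_pos h2, lpt, if_pos ⟨h2.1, Set.mem_univ _⟩]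
    apply mul_le_mul_of_nonneg_right _ (lN_pos p).le
    have h3 : E0 ≤ (kp p y).toNat := h2.2
    have h4 : (E0 : ℤ) ≤ kp p y := by omega
    exact_mod_cast h4
  · rw [if_neg h2, mul_zero]
    exact lpt_nonneg y _ p

theorem rj_high {t : K} (h0 : t ≠ 0) (h1 : t ≠ 1) (j : Fin 3) (E0 : ℕ) :
    (E0 : ℝ) * rj j t {e | E0 ≤ e} ≤ hh t :=
  (LR_highM (side_ne_zero h0 h1 j) E0).trans (LP_side_le h0 h1 j _)

/-- If all classes `2 ≤ e < E0` are at most `x`, the exponents `≥ 2` have small radical. -/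
theorem rj_ge2 {t : K} (h0 : t ≠ 0) (h1 : t ≠ 1) (j : Fin 3) (E0 : ℕ) (hE : 1 ≤ E0) (x : ℝ)
    (hx : 0 ≤ x) (h : ∀ e : ℕ, 2 ≤ e → e < E0 → rj j t {e} ≤ x) :
    rj j t {1}ᶜ ≤ E0 * x + hh t / E0 := by
  classical
  have hy := side_ne_zero h0 h1 j
  have hE' : (0 : ℝ) < E0 := by exact_mod_cast hE
  have h2 : rj j t {1}ᶜ ≤ (∑ e ∈ Finset.Ico 2 E0, rj j t {e}) + rj j t {e | E0 ≤ e} := by
    unfold rj
    simp_rw [LR_eq_sum hy]
    rw [Finset.sum_comm, ← Finset.sum_add_distrib]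
    refine Finset.sum_le_sum fun p _ => ?_
    have hl := (lN_pos p).le
    by_cases h3 : 0 < kp p (side j t) ∧ (kp p (side j t)).toNat ∈ ({1}ᶜ : Set ℕ)
    · rw [if_pos h3]
      have h4 : (kp p (side j t)).toNat ≠ 1 := h3.2
      by_cases h5 : E0 ≤ (kp p (side j t)).toNat
      · rw [if_pos (show 0 < kp p (side j t) ∧ (kp p (side j t)).toNat ∈ {e | E0 ≤ e} from
          ⟨h3.1, h5⟩)]
        refine le_add_of_nonneg_left (Finset.sum_nonneg fun e _ => ?_)
        split_ifs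
        · exact hl
        · exact le_rfl
      · have h6 : (kp p (side j t)).toNat ∈ Finset.Ico 2 E0 := by
          rw [Finset.mem_Ico]
          have := h3.1
          omega
        refine le_trans ?_ (le_add_of_nonneg_right ?_)
        · refine le_trans ?_ (Finset.single_le_sum (fun e _ => ?_) h6)
          · rw [if_pos ⟨h3.1, rfl⟩]
          · split_ifs
            · exact hl
            · exact le_rfl
        · split_ifs
          · exact hl
          · exact le_rfl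
    · rw [if_neg h3]
      refine add_nonneg (Finset.sum_nonneg fun e _ => ?_) ?_
      · split_ifs
        · exact hl
        · exact le_rfl
      · split_ifs
        · exact hl
        · exact le_rfl
  have h3 : (∑ e ∈ Finset.Ico 2 E0, rj j t {e}) ≤ E0 * x := by
    calc (∑ e ∈ Finset.Ico 2 E0, rj j t {e}) ≤ ∑ _e ∈ Finset.Ico 2 E0, x := by
          refine Finset.sum_le_sum fun e he => ?_
          rw [Finset.mem_Ico] at he
          exact h e he.1 he.2
      _ = ((E0 - 2 : ℕ) : ℝ) * x := by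
          rw [Finset.sum_const, Nat.card_Ico, nsmul_eq_mul]
      _ ≤ E0 * x := by
          apply mul_le_mul_of_nonneg_right _ hx
          exact_mod_cast Nat.sub_le _ _
  have h4 : rj j t {e | E0 ≤ e} ≤ hh t / E0 := by
    rw [le_div_iff₀ hE', mul_comm]
    exact rj_high h0 h1 j E0
  linarith

end AbcOrdM
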