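import Pool.Agent.Work.MP_a793bb_nt.OrdM.DefsM
import Pool.Agent.Work.MP_a793bb_nt.CountBlock

/-!
# The trivial bound and the bound for exponent one

Proofs. Both from `card_block_le` (`CountBlock.lean`, `i = 1`). `triv_count`: cover `F` by the sets with `log Y ≤ hs s ≤ log (2 Y)`,
`Y = 2 ^ k`, `0 ≤ k ≤ L / log 2` (`hs s ≥ 0`), and take `Ra = Rb = ∅`, `Rc = univ`, `za = zb = 0`, `zc = log (2 Y)` (`LP_side_c`), `ωa = α`, `ωb = β`, `ωc = 0`:
at most `C Y ^ ε exp (α + β + log 2)`; the number of the `k` is at most `2 L + 1`. `one_count`: the same with `Ra = Rb = Rc = {1}`, `za = LP s {1} = LR s {1} ≤ ρ`,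
`ωa = LR s {1}ᶜ ≤ ω` and so on, `log Y ≥ hs s - log 2 ≥ M - log 2` (only the `k` with `log (2 Y) ≥ M` occur): at most
`C Y ^ ε exp (3 ω + max 0 (3 ρ - M + log 2))`.
-/

set_option autoImplicit false

namespace AbcOrdM

open Finset AbcRadK Pool.Agent.Work.MP_a793bb_nt Pool.Agent.Work.MP_a793bb_nt.BPlus
  NumberField IsDedekindDomain Height

variable {K : Type*} [Field K] [NumberField K]

private lemma hs_nonnegM (s : K) : 0 ≤ hs s := logHeight_nonneg _

private lemma dyadM (L : ℝ) (hL : 0 ≤ L) (F : Finset K) (hF : ∀ s ∈ F, hs s ≤ L) (B : ℝ)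
    (hB : ∀ k : ℕ, k * Real.log 2 ≤ L → ∀ G : Finset K, G ⊆ F →
      (∀ s ∈ G, k * Real.log 2 ≤ hs s ∧ hs s ≤ (k + 1) * Real.log 2) → (G.card : ℝ) ≤ B) :
    (F.card : ℝ) ≤ (2 * L + 1) * B := by
  classical
  have hl : 0 < Real.log 2 := Real.log_pos (by norm_num)
  have hl2 : (1 : ℝ) / 2 ≤ Real.log 2 := by
    have := Real.log_two_gt_d9
    linarith
  have hB0 : 0 ≤ B := by
    have := hB 0 (by simpa using hL) ∅ (Finset.empty_subset _) (by simp)
    simpa using this
  obtain ⟨N, hN⟩ : ∃ N : ℕ, N = ⌊L / Real.log 2⌋₊ := ⟨_, rfl⟩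
  have hcov : F ⊆ (range (N + 1)).biUnion (fun k => F.filter (fun s =>
      (k : ℝ) * Real.log 2 ≤ hs s ∧ hs s ≤ (k + 1) * Real.log 2)) := by
    intro s hs'
    rw [Finset.mem_biUnion]
    refine ⟨⌊hs s / Real.log 2⌋₊, ?_, Finset.mem_filter.mpr ⟨hs', ?_, ?_⟩⟩
    · rw [Finset.mem_range, Nat.lt_succ_iff, hN]
      exact Nat.floor_le_floor (div_le_div_of_nonneg_right (hF s hs') hl.le)
    · rw [← le_div_iff₀ hl]
      exact Nat.floor_le (div_nonneg (hs_nonnegM s) hl.le)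
    · rw [← div_le_iff₀ hl]
      exact (Nat.lt_floor_add_one _).le
  have hNL : (N : ℝ) * Real.log 2 ≤ L := by
    rw [← le_div_iff₀ hl, hN]
    exact Nat.floor_le (by positivity)
  calc (F.card : ℝ) ≤ (((range (N + 1)).biUnion (fun k => F.filter (fun s =>
      (k : ℝ) * Real.log 2 ≤ hs s ∧ hs s ≤ (k + 1) * Real.log 2))).card : ℝ) :=
        Nat.cast_le.mpr (Finset.card_le_card hcov)
    _ ≤ ((∑ k ∈ range (N + 1), (F.filter (fun s =>
      (k : ℝ) * Real.log 2 ≤ hs s ∧ hs s ≤ (k + 1) * Real.log 2)).card : ℕ) : ℝ) :=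
        Nat.cast_le.mpr Finset.card_biUnion_le
    _ ≤ ∑ _k ∈ range (N + 1), B := by
        rw [Nat.cast_sum]
        refine Finset.sum_le_sum fun k hk => ?_
        refine hB k ?_ _ (Finset.filter_subset _ _) fun s hs' => (Finset.mem_filter.mp hs').2
        refine le_trans (mul_le_mul_of_nonneg_right ?_ hl.le) hNL
        have := Nat.lt_succ_iff.mp (Finset.mem_range.mp hk)
        exact_mod_cast this
    _ = ((N : ℝ) + 1) * B := by
        rw [Finset.sum_const, Finset.card_range, nsmul_eq_mul]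
        push_cast
        ring
    _ ≤ (2 * L + 1) * B := by
        apply mul_le_mul_of_nonneg_right _ hB0
        nlinarith [Nat.cast_nonneg (α := ℝ) N]

private lemma lin_le_expM (ε L : ℝ) (hε : 0 < ε) (hL : 0 ≤ L) :
    2 * L + 1 ≤ (4 / ε + 1) * Real.exp (ε / 2 * L) := by
  have h1 : ε / 2 * L ≤ Real.exp (ε / 2 * L) := by
    have := Real.add_one_le_exp (ε / 2 * L)
    linarith
  have h2 : 1 ≤ Real.exp (ε / 2 * L) := Real.one_le_exp (by positivity)
  have h3 : 4 / ε * (ε / 2 * L) = 2 * L := by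
    field_simp
    ring
  have h4 : 4 / ε * (ε / 2 * L) ≤ 4 / ε * Real.exp (ε / 2 * L) :=
    mul_le_mul_of_nonneg_left h1 (by positivity)
  nlinarith

private lemma two_pow_rpowM (k : ℕ) (ε L : ℝ) (hε : 0 < ε) (hk : k * Real.log 2 ≤ L) :
    ((2 : ℝ) ^ k) ^ ε ≤ Real.exp (ε * L) := by
  rw [Real.rpow_def_of_pos (by positivity), Real.exp_le_exp, Real.log_pow]
  nlinarith

private lemma LP_emptyM (y : K) : LP y ∅ = 0 := by
  unfold LP
  have h : ∀ p, lpt y ∅ p = 0 := by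
    intro p
    unfold lpt
    rw [if_neg]
    rintro ⟨-, h⟩
    exact h
  simp [h]

private lemma LR_emptyM (y : K) : LR y ∅ = 0 := by
  unfold LR Rs
  simp

private lemma LP_oneM {y : K} (hy : y ≠ 0) : LP y {1} = LR y {1} := by
  classical
  have hT : ∀ p ∈ Zp y, p ∈ (finite_Zp hy).toFinset := fun p hp => by simpa using hp
  rw [LP_eq hy _ _ hT, LR_eq_sum hy]
  refine Finset.sum_congr rfl fun p _ => ?_
  unfold lpt
  by_cases h : 0 < kp p y ∧ (kp p y).toNat ∈ ({1} : Set ℕ)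
  · rw [if_pos h, if_pos h]
    have h2 : (kp p y).toNat = 1 := h.2
    have h3 : kp p y = 1 := by
      have := h.1
      omega
    rw [h3]
    simp
  · rw [if_neg h, if_neg h]

theorem triv_count (K : Type*) [Field K] [NumberField K] (ε : ℝ) (hε : 0 < ε) :
    ∃ C : ℝ, 1 ≤ C ∧ ∀ L α β : ℝ, 0 ≤ L → 0 ≤ α → 0 ≤ β → ∀ F : Finset K,
      (∀ s ∈ F, s ≠ 0 ∧ 1 + s ≠ 0 ∧ hs s ≤ L ∧ LR s Set.univ ≤ α ∧ LR s⁻¹ Set.univ ≤ β) →
      (F.card : ℝ) ≤ C * Real.exp (ε * L) * Real.exp (α + β) := by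
  classical
  have hε2 : 0 < ε / 2 := by positivity
  obtain ⟨C, hC, h⟩ := card_block_le K (i := 1) le_rfl (Ra := ∅) (Rb := ∅) (Rc := Set.univ)
    (by simp) (by simp) hε2
  have hC0 : 0 ≤ C := by linarith
  refine ⟨(4 / ε + 1) * (2 * C), ?_, fun L α β hL hα hβ F hF => ?_⟩
  · have : 0 ≤ 4 / ε := by positivity
    nlinarith
  have hd := dyadM L hL F (fun s hs' => (hF s hs').2.2.1)
    (2 * C * Real.exp (ε / 2 * L) * Real.exp (α + β)) ?_
  · refine hd.trans ?_
    have h1 := lin_le_expM ε L hε hL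
    calc (2 * L + 1) * (2 * C * Real.exp (ε / 2 * L) * Real.exp (α + β)) ≤
        ((4 / ε + 1) * Real.exp (ε / 2 * L)) *
          (2 * C * Real.exp (ε / 2 * L) * Real.exp (α + β)) :=
          mul_le_mul_of_nonneg_right h1 (by positivity)
      _ = (4 / ε + 1) * (2 * C) * (Real.exp (ε / 2 * L) * Real.exp (ε / 2 * L)) *
          Real.exp (α + β) := by ring
      _ = (4 / ε + 1) * (2 * C) * Real.exp (ε * L) * Real.exp (α + β) := by
          rw [← Real.exp_add]
          congr 3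
          ring
  · intro k hk G hG hGk
    have hlog : Real.log (2 * 2 ^ k) = (k + 1) * Real.log 2 := by
      rw [Real.log_mul (by norm_num) (by positivity), Real.log_pow]
      ring
    have hlog' : Real.log (2 ^ k : ℝ) = k * Real.log 2 := Real.log_pow _ _
    have h1 := h (2 ^ k) 0 0 (Real.log (2 * 2 ^ k)) α β 0 (one_le_pow₀ (by norm_num)) G
      (fun s hs' => ?_) (fun s hs' => ?_)
    · refine h1.trans ?_
      have e1 : max 0 ((0 + 0) / ((1 : ℕ) : ℝ) + Real.log (2 * 2 ^ k) -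
          Real.log (2 ^ k : ℝ)) = Real.log 2 := by
        rw [hlog, hlog']
        rw [max_eq_right]
        · push_cast
          ring
        · have := Real.log_pos (show (1 : ℝ) < 2 by norm_num)
          push_cast
          linarith
      rw [e1, add_zero, Real.exp_add (α + β), Real.exp_log (by norm_num)]
      have h2 := two_pow_rpowM k (ε / 2) L hε2 hk
      calc C * ((2 : ℝ) ^ k) ^ (ε / 2) * (Real.exp (α + β) * 2) ≤
          C * Real.exp (ε / 2 * L) * (Real.exp (α + β) * 2) := by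
            apply mul_le_mul_of_nonneg_right _ (by positivity)
            exact mul_le_mul_of_nonneg_left h2 hC0
        _ = 2 * C * Real.exp (ε / 2 * L) * Real.exp (α + β) := by ring
    · obtain ⟨n0, n1, hH, ha, hb⟩ := hF s (hG hs')
      obtain ⟨hk1, hk2⟩ := hGk s hs'
      refine ⟨n0, n1, ?_, ?_, ?_, ?_, ?_⟩
      · rw [hlog']
        exact hk1
      · rw [hlog]
        exact hk2
      · rw [LP_emptyM]
      · rw [LP_emptyM]
      · rw [hlog]
        exact (LP_side_c n1 _).trans hk2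
    · obtain ⟨n0, n1, hH, ha, hb⟩ := hF s (hG hs')
      rw [Set.compl_empty, Set.compl_univ, LR_emptyM]
      exact ⟨ha, hb, le_rfl⟩

theorem one_count (K : Type*) [Field K] [NumberField K] (ε : ℝ) (hε : 0 < ε) :
    ∃ C : ℝ, 1 ≤ C ∧ ∀ L M ω ρ : ℝ, 0 ≤ L → 0 ≤ ω → 0 ≤ ρ → ∀ F : Finset K,
      (∀ s ∈ F, s ≠ 0 ∧ 1 + s ≠ 0 ∧ M ≤ hs s ∧ hs s ≤ L ∧
        LR s {1} ≤ ρ ∧ LR s⁻¹ {1} ≤ ρ ∧ LR (1 + s) {1} ≤ ρ ∧
        LR s {1}ᶜ ≤ ω ∧ LR s⁻¹ {1}ᶜ ≤ ω ∧ LR (1 + s) {1}ᶜ ≤ ω) →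
      (F.card : ℝ) ≤ C * Real.exp (ε * L) * Real.exp (3 * ω + max 0 (3 * ρ - M)) := by
  classical
  have hε2 : 0 < ε / 2 := by positivity
  obtain ⟨C, hC, h⟩ := card_block_le K (i := 1) le_rfl (Ra := {1}) (Rb := {1}) (Rc := {1})
    (by simp) (by simp) hε2
  have hC0 : 0 ≤ C := by linarith
  refine ⟨(4 / ε + 1) * (2 * C), ?_, fun L M ω ρ hL hω hρ F hF => ?_⟩
  · have : 0 ≤ 4 / ε := by positivity
    nlinarith
  obtain ⟨X, hX⟩ : ∃ X : ℝ, X = 3 * ω + max 0 (3 * ρ - M) := ⟨_, rfl⟩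
  rw [← hX]
  have hd := dyadM L hL F (fun s hs' => (hF s hs').2.2.2.1)
    (2 * C * Real.exp (ε / 2 * L) * Real.exp X) ?_
  · refine hd.trans ?_
    have h1 := lin_le_expM ε L hε hL
    calc (2 * L + 1) * (2 * C * Real.exp (ε / 2 * L) * Real.exp X) ≤
        ((4 / ε + 1) * Real.exp (ε / 2 * L)) *
          (2 * C * Real.exp (ε / 2 * L) * Real.exp X) :=
          mul_le_mul_of_nonneg_right h1 (by positivity)
      _ = (4 / ε + 1) * (2 * C) * (Real.exp (ε / 2 * L) * Real.exp (ε / 2 * L)) *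
          Real.exp X := by ring
      _ = (4 / ε + 1) * (2 * C) * Real.exp (ε * L) * Real.exp X := by
          rw [← Real.exp_add]
          congr 3
          ring
  · intro k hk G hG hGk
    rcases G.eq_empty_or_nonempty with he | ⟨s₀, hs₀⟩
    · rw [he]
      simp only [Finset.card_empty, Nat.cast_zero]
      positivity
    have hM : M ≤ (k + 1) * Real.log 2 := (hF s₀ (hG hs₀)).2.2.1.trans (hGk s₀ hs₀).2
    have hlog : Real.log (2 * 2 ^ k) = (k + 1) * Real.log 2 := by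
      rw [Real.log_mul (by norm_num) (by positivity), Real.log_pow]
      ring
    have hlog' : Real.log (2 ^ k : ℝ) = k * Real.log 2 := Real.log_pow _ _
    have h1 := h (2 ^ k) ρ ρ ρ ω ω ω (one_le_pow₀ (by norm_num)) G
      (fun s hs' => ?_) (fun s hs' => ?_)
    · refine h1.trans ?_
      have hl2 := Real.log_pos (show (1 : ℝ) < 2 by norm_num)
      have e1 : ω + ω + ω + max 0 ((ρ + ρ) / ((1 : ℕ) : ℝ) + ρ - Real.log (2 ^ k : ℝ)) ≤
          X + Real.log 2 := by
        rw [hX, hlog']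
        have h3 : max 0 ((ρ + ρ) / ((1 : ℕ) : ℝ) + ρ - k * Real.log 2) ≤
            max 0 (3 * ρ - M) + Real.log 2 := by
          apply max_le
          · have := le_max_left 0 (3 * ρ - M)
            linarith
          · have := le_max_right 0 (3 * ρ - M)
            push_cast
            linarith
        linarith
      have h2 := two_pow_rpowM k (ε / 2) L hε2 hk
      calc C * ((2 : ℝ) ^ k) ^ (ε / 2) * Real.exp (ω + ω + ω +
            max 0 ((ρ + ρ) / ((1 : ℕ) : ℝ) + ρ - Real.log (2 ^ k : ℝ))) ≤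
          C * Real.exp (ε / 2 * L) * Real.exp (X + Real.log 2) := by
            apply mul_le_mul _ (Real.exp_le_exp.mpr e1) (Real.exp_pos _).le (by positivity)
            exact mul_le_mul_of_nonneg_left h2 hC0
        _ = 2 * C * Real.exp (ε / 2 * L) * Real.exp X := by
            rw [Real.exp_add, Real.exp_log (by norm_num)]
            ring
    · obtain ⟨n0, n1, hM', hH, ha, hb, hc, -, -, -⟩ := hF s (hG hs')
      obtain ⟨hk1, hk2⟩ := hGk s hs'
      refine ⟨n0, n1, ?_, ?_, ?_, ?_, ?_⟩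
      · rw [hlog']
        exact hk1
      · rw [hlog]
        exact hk2
      · rw [LP_oneM n0]
        exact ha
      · rw [LP_oneM (inv_ne_zero n0)]
        exact hb
      · rw [LP_oneM n1]
        exact hc
    · obtain ⟨n0, n1, hM', hH, -, -, -, ha, hb, hc⟩ := hF s (hG hs')
      exact ⟨ha, hb, hc⟩

end AbcOrdM
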