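import Pool.Agent.Work.MP_a793bb_nt.OrdM.CauchyM
import Pool.Agent.Work.MP_a793bb_nt.OrdM.TrivM
import Pool.Agent.Work.MP_a793bb_nt.OrdM.SidesM

/-!
# The points of bounded height

Proof. `E0 = ⌈24 Λ / δ⌉₊ + 2`, `η = δ / (384 E0)`, `w = 16 η` (`η ≤ 1 / 100`), `ε' = η / (2 Λ)` (so
`exp (ε' Λ ℓ) = exp (η ℓ / 2)`; `Λ ≥ 1`). Let `t` be in the set, `r_j = rj j t univ`, `∑ r_j ≤ ℓ` (`rj_sum`).
(0) If `r_(j+1) + r_(j+2) ≤ (2 / 3 - 2 η) ℓ` for some `j`: for each `j` the images `s = sOf j t` are counted as follows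
(`hs s = hh t`, `sOf_injective`): `r_(j+1)` lies in some `[k, k + 1] η ℓ`, `0 ≤ k ≤ 1 / η`; apply `triv_count` with
`α = (k + 1) η ℓ`, `β = (2 / 3 - 2 η) ℓ - k η ℓ` (if `≥ 0`).
(1) Otherwise all `r_j ≤ (1 / 3 + 2 η) ℓ`. If `rj (j + 1) t {e} ≥ w ℓ` for some `j` and `2 ≤ e < E0`: `cs_count` for
`s = sOf j t` with `α = (1 / 3 + 2 η - w) ℓ`, `β = γ = (1 / 3 + 2 η) ℓ`, `L = Λ ℓ`.
(2) Otherwise `rj j t {1}ᶜ ≤ (E0 w + Λ / E0) ℓ ≤ (δ / 12) ℓ` for all `j` (`rj_ge2`, `hh t ≤ Λ ℓ`), and `one_count`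
applies for `s = sOf 0 t` with `M = (1 / 3 + δ) ℓ`, `ω = (δ / 12) ℓ`, `ρ = (1 / 3 + 2 η) ℓ`
(we may assume `δ ≤ 1 / 3`). Finiteness: `hh t ≤ Λ ℓ` and Northcott.
-/

set_option autoImplicit false

namespace Pool.Agent.Work.MP_a793bb_nt

open Finset AbcRadK AbcOrdM Pool.Agent.Work.MP_a793bb_nt.BPlus NumberField IsDedekindDomain
  Height

private lemma finM {K : Type*} [Field K] [NumberField K] (ℓ δ Lam : ℝ) :
    {t : K | t ≠ 0 ∧ t ≠ 1 ∧ Rs (Ip t) ≤ ℓ ∧ (1 / 3 + δ) * ℓ ≤ hh t ∧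
      hh t ≤ Lam * ℓ}.Finite := by
  refine (NumberField.finite_setOfPred_mulHeight₁_le K (Real.exp (Lam * ℓ))).subset ?_
  rintro t ⟨-, -, -, -, h⟩
  have h1 : logHeight₁ t ≤ Lam * ℓ := (logHeight₁_le_triple t).trans h
  have h2 : 0 < mulHeight₁ t := mulHeight₁_pos t
  exact (Real.log_le_iff_le_exp h2).mp h1

private lemma card_sideM {K : Type*} [Field K] [NumberField K] (j : Fin 3) (S : Finset K)
    (hS : ∀ t ∈ S, t ≠ 1) (P : K → Prop) (B : ℝ)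
    (hB : ∀ F : Finset K, (∀ u ∈ F, P u) → (F.card : ℝ) ≤ B)
    (hSP : ∀ t ∈ S, P (sOf j t)) : (S.card : ℝ) ≤ B := by
  classical
  have hinj : Set.InjOn (fun t : K => sOf j t) (S : Set K) := by
    intro t ht t' ht' h
    exact sOf_injective j (hS t ht) (hS t' ht') h
  rw [← Finset.card_image_of_injOn hinj]
  refine hB _ ?_
  intro u hu
  rw [Finset.mem_image] at hu
  obtain ⟨t, ht, rfl⟩ := hu
  exact hSP t ht

private lemma exists_kM (η ℓ r : ℝ) (hη : 0 < η) (hℓ : 0 ≤ ℓ) (h0 : 0 ≤ r) (h1 : r ≤ ℓ) :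
    ∃ k ∈ range (⌊1 / η⌋₊ + 1), (k : ℝ) * (η * ℓ) ≤ r ∧ r ≤ (k + 1) * (η * ℓ) := by
  rcases hℓ.eq_or_lt with h | h
  · refine ⟨0, by simp, ?_, ?_⟩
    · rw [← h]
      simpa using h0
    · rw [← h] at h1 ⊢
      simpa using h1
  · have hp : 0 < η * ℓ := by positivity
    refine ⟨⌊r / (η * ℓ)⌋₊, ?_, ?_, ?_⟩
    · rw [Finset.mem_range, Nat.lt_succ_iff]
      apply Nat.floor_le_floor
      rw [div_le_div_iff₀ hp hη]
      nlinarith
    · rw [← le_div_iff₀ hp]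
      exact Nat.floor_le (by positivity)
    · rw [← div_le_iff₀ hp]
      exact (Nat.lt_floor_add_one _).le

private lemma caseZero (K : Type*) [Field K] [NumberField K] (Lam η : ℝ) (hL : 1 ≤ Lam)
    (hη : 0 < η) (j : Fin 3) :
    ∃ C : ℝ, 0 ≤ C ∧ ∀ ℓ : ℝ, 0 ≤ ℓ → ∀ S : Finset K,
      (∀ t ∈ S, t ≠ 0 ∧ t ≠ 1 ∧ hh t ≤ Lam * ℓ ∧ rj (j + 1) t Set.univ ≤ ℓ ∧
        rj (j + 1) t Set.univ + rj (j + 2) t Set.univ ≤ (2 / 3 - 2 * η) * ℓ) →
      (S.card : ℝ) ≤ C * Real.exp ((2 / 3 - η / 2) * ℓ) := by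
  classical
  have hL0 : 0 < Lam := by linarith
  obtain ⟨C, hC, h⟩ := triv_count K (η / (2 * Lam)) (by positivity)
  have hC0 : 0 ≤ C := by linarith
  refine ⟨((⌊1 / η⌋₊ + 1 : ℕ) : ℝ) * C, by positivity, fun ℓ hℓ S hS => ?_⟩
  have hcov : S ⊆ (range (⌊1 / η⌋₊ + 1)).biUnion (fun k => S.filter (fun t =>
      (k : ℝ) * (η * ℓ) ≤ rj (j + 1) t Set.univ ∧
        rj (j + 1) t Set.univ ≤ (k + 1) * (η * ℓ))) := by
    intro t ht
    obtain ⟨k, hk, hk1, hk2⟩ := exists_kM η ℓ _ hη hℓ (rj_nonneg (j + 1) t Set.univ)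
      (hS t ht).2.2.2.1
    rw [Finset.mem_biUnion]
    exact ⟨k, hk, Finset.mem_filter.mpr ⟨ht, hk1, hk2⟩⟩
  have hbd : ∀ k ∈ range (⌊1 / η⌋₊ + 1), ((S.filter (fun t =>
      (k : ℝ) * (η * ℓ) ≤ rj (j + 1) t Set.univ ∧
        rj (j + 1) t Set.univ ≤ (k + 1) * (η * ℓ))).card : ℝ) ≤
      C * Real.exp ((2 / 3 - η / 2) * ℓ) := by
    intro k _
    by_cases hneg : 0 ≤ (2 / 3 - 2 * η) * ℓ - k * (η * ℓ)
    · have h1 := h (Lam * ℓ) ((k + 1) * (η * ℓ)) ((2 / 3 - 2 * η) * ℓ - k * (η * ℓ))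
        (by positivity) (by positivity) hneg
      have e : C * Real.exp (η / (2 * Lam) * (Lam * ℓ)) *
          Real.exp ((k + 1) * (η * ℓ) + ((2 / 3 - 2 * η) * ℓ - k * (η * ℓ))) =
          C * Real.exp ((2 / 3 - η / 2) * ℓ) := by
        rw [mul_assoc, ← Real.exp_add]
        congr 2
        field_simp
        ring
      rw [e] at h1
      refine card_sideM j _ (fun t ht => (hS t (Finset.mem_filter.mp ht).1).2.1) _ _ h1 ?_
      intro t ht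
      obtain ⟨ht1, ht2, ht3⟩ := Finset.mem_filter.mp ht
      obtain ⟨n0, n1, hH, -, hr⟩ := hS t ht1
      refine ⟨sOf_ne_zero n0 n1 j, one_add_sOf_ne_zero n0 n1 j, ?_, ?_, ?_⟩
      · rw [hs_sOf n0 n1]
        exact hH
      · rw [LR_a n0 n1]
        exact ht3
      · rw [LR_b n0 n1]
        linarith
    · have he : S.filter (fun t => (k : ℝ) * (η * ℓ) ≤ rj (j + 1) t Set.univ ∧
          rj (j + 1) t Set.univ ≤ (k + 1) * (η * ℓ)) = ∅ := by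
        rw [Finset.filter_eq_empty_iff]
        rintro t ht ⟨h2, -⟩
        have h3 := (hS t ht).2.2.2.2
        have h4 := rj_nonneg (j + 2) t Set.univ
        apply hneg
        linarith
      rw [he]
      simp only [Finset.card_empty, Nat.cast_zero]
      positivity
  calc (S.card : ℝ) ≤ (((range (⌊1 / η⌋₊ + 1)).biUnion (fun k => S.filter (fun t =>
      (k : ℝ) * (η * ℓ) ≤ rj (j + 1) t Set.univ ∧
        rj (j + 1) t Set.univ ≤ (k + 1) * (η * ℓ)))).card : ℝ) := by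
        exact_mod_cast Finset.card_le_card hcov
    _ ≤ ∑ k ∈ range (⌊1 / η⌋₊ + 1), ((S.filter (fun t =>
      (k : ℝ) * (η * ℓ) ≤ rj (j + 1) t Set.univ ∧
        rj (j + 1) t Set.univ ≤ (k + 1) * (η * ℓ))).card : ℝ) := by
        exact_mod_cast Finset.card_biUnion_le
    _ ≤ ∑ _k ∈ range (⌊1 / η⌋₊ + 1), C * Real.exp ((2 / 3 - η / 2) * ℓ) :=
        Finset.sum_le_sum hbd
    _ = ((⌊1 / η⌋₊ + 1 : ℕ) : ℝ) * C * Real.exp ((2 / 3 - η / 2) * ℓ) := by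
        rw [Finset.sum_const, Finset.card_range, nsmul_eq_mul]
        ring

private lemma quadB {x A D C E : ℝ} (hx : 0 ≤ x) (hC : 1 ≤ C) (hE : 0 ≤ E)
    (hA : A ≤ C * E) (hAD : A * D ≤ C * E ^ 2) (h : x ^ 2 ≤ A * (x + D)) :
    x ≤ 2 * C * E := by
  by_cases h1 : x ≤ 2 * A
  · nlinarith
  · push Not at h1
    have h2 : x ^ 2 ≤ 2 * C * E ^ 2 := by nlinarith
    have h3 : x ^ 2 ≤ (2 * C * E) ^ 2 := by
      refine h2.trans ?_
      have h4 : 2 * C ≤ (2 * C) ^ 2 := by nlinarith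
      calc 2 * C * E ^ 2 ≤ (2 * C) ^ 2 * E ^ 2 := mul_le_mul_of_nonneg_right h4 (sq_nonneg _)
        _ = (2 * C * E) ^ 2 := by ring
    exact abs_le_of_sq_le_sq' h3 (by positivity) |>.2

private lemma caseOne (K : Type*) [Field K] [NumberField K] (Lam η : ℝ) (hL : 1 ≤ Lam)
    (hη : 0 < η) (hη1 : η ≤ 1 / 100) (j : Fin 3) (e : ℕ) :
    ∃ C : ℝ, 0 ≤ C ∧ (2 ≤ e → ∀ ℓ : ℝ, 0 ≤ ℓ → ∀ S : Finset K,
      (∀ t ∈ S, t ≠ 0 ∧ t ≠ 1 ∧ hh t ≤ Lam * ℓ ∧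
        (∀ i, rj i t Set.univ ≤ (1 / 3 + 2 * η) * ℓ) ∧
        16 * η * ℓ ≤ rj (j + 1) t {e}) →
      (S.card : ℝ) ≤ C * Real.exp ((2 / 3 - η / 2) * ℓ)) := by
  classical
  by_cases he : 2 ≤ e
  swap
  · exact ⟨0, le_rfl, fun h => absurd h he⟩
  have hL0 : 0 < Lam := by linarith
  obtain ⟨C, hC, h⟩ := cs_count K e he (η / (2 * Lam)) (by positivity)
  have hC0 : 0 ≤ C := by linarith
  refine ⟨2 * C, by positivity, fun _ ℓ hℓ S hS => ?_⟩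
  have hηℓ : 0 ≤ η * ℓ := by positivity
  have h1 := h (Lam * ℓ) ((1 / 3 + 2 * η - 16 * η) * ℓ) ((1 / 3 + 2 * η) * ℓ)
    ((1 / 3 + 2 * η) * ℓ) (by positivity) (mul_nonneg (by linarith) hℓ) (by positivity)
    (by positivity)
  refine card_sideM j S (fun t ht => (hS t ht).2.1)
    (fun s => s ≠ 0 ∧ 1 + s ≠ 0 ∧ hs s ≤ Lam * ℓ ∧
      LR s {e}ᶜ ≤ (1 / 3 + 2 * η - 16 * η) * ℓ ∧ LR s⁻¹ Set.univ ≤ (1 / 3 + 2 * η) * ℓ ∧
        LR (1 + s) Set.univ ≤ (1 / 3 + 2 * η) * ℓ) _ ?_ ?_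
  · intro F hF
    have h2 := h1 F hF
    refine quadB (Nat.cast_nonneg _) hC (Real.exp_pos _).le ?_ ?_ h2
    · rw [mul_assoc, ← Real.exp_add]
      apply mul_le_mul_of_nonneg_left _ hC0
      rw [Real.exp_le_exp]
      have e1 : η / (2 * Lam) * (Lam * ℓ) = η * ℓ / 2 := by
        field_simp
      rw [e1]
      nlinarith
    · rw [mul_assoc C, ← Real.exp_add, mul_assoc C, ← Real.exp_add, ← Real.exp_nat_mul]
      apply mul_le_mul_of_nonneg_left _ hC0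
      rw [Real.exp_le_exp]
      have e1 : η / (2 * Lam) * (Lam * ℓ) = η * ℓ / 2 := by
        field_simp
      rw [e1]
      push_cast
      nlinarith
  · intro t ht
    obtain ⟨n0, n1, hH, hr, hw⟩ := hS t ht
    refine ⟨sOf_ne_zero n0 n1 j, one_add_sOf_ne_zero n0 n1 j, ?_, ?_, ?_, ?_⟩
    · rw [hs_sOf n0 n1]
      exact hH
    · rw [LR_a n0 n1]
      have h3 := rj_add n0 n1 (j + 1) {e}
      have h4 := hr (j + 1)
      linarith
    · rw [LR_b n0 n1]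
      exact hr _
    · rw [LR_c n0 n1]
      exact hr _

private lemma caseTwo (K : Type*) [Field K] [NumberField K] (Lam δ η : ℝ) (hL : 1 ≤ Lam)
    (hδ : 0 < δ) (hδ1 : δ ≤ 1 / 3) (hη : 0 < η) (hη1 : 16 * η ≤ δ) :
    ∃ C : ℝ, 0 ≤ C ∧ ∀ ℓ : ℝ, 0 ≤ ℓ → ∀ S : Finset K,
      (∀ t ∈ S, t ≠ 0 ∧ t ≠ 1 ∧ (1 / 3 + δ) * ℓ ≤ hh t ∧ hh t ≤ Lam * ℓ ∧
        (∀ i, rj i t Set.univ ≤ (1 / 3 + 2 * η) * ℓ) ∧
        (∀ i, rj i t {1}ᶜ ≤ δ / 12 * ℓ)) →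
      (S.card : ℝ) ≤ C * Real.exp ((2 / 3 - η / 2) * ℓ) := by
  classical
  have hL0 : 0 < Lam := by linarith
  obtain ⟨C, hC, h⟩ := one_count K (η / (2 * Lam)) (by positivity)
  have hC0 : 0 ≤ C := by linarith
  refine ⟨C, hC0, fun ℓ hℓ S hS => ?_⟩
  have hηℓ : 0 ≤ η * ℓ := by positivity
  have h1 := h (Lam * ℓ) ((1 / 3 + δ) * ℓ) (δ / 12 * ℓ) ((1 / 3 + 2 * η) * ℓ)
    (by positivity) (by positivity) (by positivity)
  have hle : C * Real.exp (η / (2 * Lam) * (Lam * ℓ)) *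
      Real.exp (3 * (δ / 12 * ℓ) + max 0 (3 * ((1 / 3 + 2 * η) * ℓ) - (1 / 3 + δ) * ℓ)) ≤
      C * Real.exp ((2 / 3 - η / 2) * ℓ) := by
    rw [mul_assoc, ← Real.exp_add]
    apply mul_le_mul_of_nonneg_left _ hC0
    rw [Real.exp_le_exp]
    have e1 : η / (2 * Lam) * (Lam * ℓ) = η * ℓ / 2 := by
      field_simp
    rw [e1]
    have h16 : 16 * η * ℓ ≤ δ * ℓ := mul_le_mul_of_nonneg_right hη1 hℓ
    have h13 : δ * ℓ ≤ 1 / 3 * ℓ := mul_le_mul_of_nonneg_right hδ1 hℓ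
    rcases le_total 0 (3 * ((1 / 3 + 2 * η) * ℓ) - (1 / 3 + δ) * ℓ) with h0 | h0
    · rw [max_eq_right h0]
      nlinarith
    · rw [max_eq_left h0]
      nlinarith
  refine (card_sideM 0 S (fun t ht => (hS t ht).2.1) _ _ h1 ?_).trans hle
  intro t ht
  obtain ⟨n0, n1, hM, hH, hr, hw⟩ := hS t ht
  have hadd : ∀ i, rj i t {1} ≤ (1 / 3 + 2 * η) * ℓ := by
    intro i
    have h3 := rj_add n0 n1 i {1}
    have h4 := hr i
    have h5 := rj_nonneg i t {1}ᶜ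
    linarith
  refine ⟨sOf_ne_zero n0 n1 0, one_add_sOf_ne_zero n0 n1 0, ?_, ?_, ?_, ?_, ?_, ?_, ?_, ?_⟩
  · rw [hs_sOf n0 n1]
    exact hM
  · rw [hs_sOf n0 n1]
    exact hH
  · rw [LR_a n0 n1]
    exact hadd _
  · rw [LR_b n0 n1]
    exact hadd _
  · rw [LR_c n0 n1]
    exact hadd _
  · rw [LR_a n0 n1]
    exact hw _
  · rw [LR_b n0 n1]
    exact hw _
  · rw [LR_c n0 n1]
    exact hw _

theorem partII_affine (K : Type*) [Field K] [NumberField K] (Lam δ : ℝ) (hL : 1 ≤ Lam)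
    (hδ : 0 < δ) :
    ∃ η C : ℝ, 0 < η ∧ ∀ ℓ : ℝ, 0 ≤ ℓ →
      {t : K | t ≠ 0 ∧ t ≠ 1 ∧ Rs (Ip t) ≤ ℓ ∧ (1 / 3 + δ) * ℓ ≤ hh t ∧
        hh t ≤ Lam * ℓ}.Finite ∧
      ({t : K | t ≠ 0 ∧ t ≠ 1 ∧ Rs (Ip t) ≤ ℓ ∧ (1 / 3 + δ) * ℓ ≤ hh t ∧
        hh t ≤ Lam * ℓ}.ncard : ℝ) ≤ C * Real.exp ((2 / 3 - η) * ℓ) := by
  classical
  have hL0 : 0 < Lam := by linarith
  obtain ⟨d, hd⟩ : ∃ d : ℝ, d = min δ (1 / 3) := ⟨_, rfl⟩
  have hd0 : 0 < d := by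
    rw [hd]
    exact lt_min hδ (by norm_num)
  have hdδ : d ≤ δ := hd ▸ min_le_left _ _
  have hd3 : d ≤ 1 / 3 := hd ▸ min_le_right _ _
  obtain ⟨E0, hE0⟩ : ∃ E0 : ℕ, E0 = ⌈24 * Lam / d⌉₊ + 2 := ⟨_, rfl⟩
  have hE1 : (24 * Lam / d : ℝ) ≤ E0 := by
    rw [hE0]
    push_cast
    have := Nat.le_ceil (24 * Lam / d)
    linarith
  have hE2 : (2 : ℝ) ≤ E0 := by
    rw [hE0]
    push_cast
    have : (0 : ℝ) ≤ (⌈24 * Lam / d⌉₊ : ℝ) := Nat.cast_nonneg _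
    linarith
  have hEpos : (0 : ℝ) < E0 := by linarith
  obtain ⟨η, hηdef⟩ : ∃ η : ℝ, η = d / (384 * E0) := ⟨_, rfl⟩
  have hη : 0 < η := by
    rw [hηdef]
    positivity
  have hηE : 384 * E0 * η = d := by
    rw [hηdef]
    field_simp
  have hηd : 768 * η ≤ d := by nlinarith
  have hη100 : η ≤ 1 / 100 := by linarith
  choose C0 hC0 hcase0 using fun j => caseZero K Lam η hL hη j
  choose C1 hC1 hcase1 using fun (q : Fin 3 × ℕ) => caseOne K Lam η hL hη hη100 q.1 q.2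
  obtain ⟨C2, hC2, hcase2⟩ := caseTwo K Lam d η hL hd0 hd3 hη (by linarith)
  refine ⟨η / 2, (∑ j : Fin 3, C0 j) + ((∑ q ∈ (univ : Finset (Fin 3)) ×ˢ range E0, C1 q) + C2),
    by positivity, fun ℓ hℓ => ?_⟩
  have hfin := finM (K := K) ℓ δ Lam
  refine ⟨hfin, ?_⟩
  rw [Set.ncard_eq_toFinset_card _ hfin]
  obtain ⟨W, hWdef⟩ : ∃ W : Finset K, W = hfin.toFinset := ⟨_, rfl⟩
  rw [← hWdef]
  have hW : ∀ t ∈ W, t ≠ 0 ∧ t ≠ 1 ∧ Rs (Ip t) ≤ ℓ ∧ (1 / 3 + δ) * ℓ ≤ hh t ∧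
      hh t ≤ Lam * ℓ := by
    intro t ht
    rw [hWdef, Set.Finite.mem_toFinset] at ht
    exact ht
  obtain ⟨B, hB⟩ : ∃ B : ℝ, B = Real.exp ((2 / 3 - η / 2) * ℓ) := ⟨_, rfl⟩
  have hcov : W ⊆ ((univ : Finset (Fin 3)).biUnion (fun j => W.filter (fun t =>
      rj (j + 1) t Set.univ + rj (j + 2) t Set.univ ≤ (2 / 3 - 2 * η) * ℓ))) ∪
      ((((univ : Finset (Fin 3)) ×ˢ range E0).biUnion (fun q => W.filter (fun t => 2 ≤ q.2 ∧
        (∀ i, rj i t Set.univ ≤ (1 / 3 + 2 * η) * ℓ) ∧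
        16 * η * ℓ ≤ rj (q.1 + 1) t {q.2}))) ∪
      W.filter (fun t => (∀ i, rj i t Set.univ ≤ (1 / 3 + 2 * η) * ℓ) ∧
        (∀ i, rj i t {1}ᶜ ≤ d / 12 * ℓ))) := by
    intro t ht
    obtain ⟨n0, n1, hR, hlow, hup⟩ := hW t ht
    have hsum := (rj_sum n0 n1).trans hR
    rw [Finset.mem_union, Finset.mem_union]
    by_cases hz : ∃ j : Fin 3, rj (j + 1) t Set.univ + rj (j + 2) t Set.univ ≤
        (2 / 3 - 2 * η) * ℓ
    · obtain ⟨j, hj⟩ := hz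
      left
      rw [Finset.mem_biUnion]
      exact ⟨j, Finset.mem_univ _, Finset.mem_filter.mpr ⟨ht, hj⟩⟩
    · right
      push Not at hz
      have hall : ∀ i, rj i t Set.univ ≤ (1 / 3 + 2 * η) * ℓ := by
        have z0 := hz 0
        have z1 := hz 1
        have z2 := hz 2
        have e1 : (0 : Fin 3) + 1 = 1 := rfl
        have e2 : (0 : Fin 3) + 2 = 2 := rfl
        have e3 : (1 : Fin 3) + 1 = 2 := rfl
        have e4 : (1 : Fin 3) + 2 = 0 := rfl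
        have e5 : (2 : Fin 3) + 1 = 0 := rfl
        have e6 : (2 : Fin 3) + 2 = 1 := rfl
        rw [e1, e2] at z0
        rw [e3, e4] at z1
        rw [e5, e6] at z2
        intro i
        fin_cases i
        · change rj 0 t Set.univ ≤ _
          linarith
        · change rj 1 t Set.univ ≤ _
          linarith
        · change rj 2 t Set.univ ≤ _
          linarith
      by_cases ho : ∃ q ∈ (univ : Finset (Fin 3)) ×ˢ range E0, 2 ≤ q.2 ∧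
          16 * η * ℓ ≤ rj (q.1 + 1) t {q.2}
      · obtain ⟨q, hq, hq2, hq3⟩ := ho
        left
        rw [Finset.mem_biUnion]
        exact ⟨q, hq, Finset.mem_filter.mpr ⟨ht, hq2, hall, hq3⟩⟩
      · right
        push Not at ho
        refine Finset.mem_filter.mpr ⟨ht, hall, fun i => ?_⟩
        have hsmall : ∀ e : ℕ, 2 ≤ e → e < E0 → rj i t {e} ≤ 16 * η * ℓ := by
          intro e he1 he2
          have h1 := ho (i + 2, e) (Finset.mem_product.mpr ⟨Finset.mem_univ _,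
            Finset.mem_range.mpr he2⟩) he1
          have e7 : i + 2 + 1 = i := by
            fin_cases i <;> rfl
          simp only [e7] at h1
          exact h1.le
        have h2 := rj_ge2 n0 n1 i E0 (by omega) (16 * η * ℓ) (by positivity) hsmall
        refine h2.trans ?_
        have h3 : hh t / E0 ≤ d / 24 * ℓ := by
          rw [div_le_iff₀ hEpos]
          have h4 : Lam ≤ d / 24 * E0 := by
            rw [div_le_iff₀ hd0] at hE1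
            linarith
          calc hh t ≤ Lam * ℓ := hup
            _ ≤ d / 24 * E0 * ℓ := mul_le_mul_of_nonneg_right h4 hℓ
            _ = d / 24 * ℓ * E0 := by ring
        have h5 : (E0 : ℝ) * (16 * η * ℓ) = d / 24 * ℓ := by
          rw [← hηE]
          ring
        rw [h5]
        linarith
  have b0 : ((((univ : Finset (Fin 3)).biUnion (fun j => W.filter (fun t =>
      rj (j + 1) t Set.univ + rj (j + 2) t Set.univ ≤ (2 / 3 - 2 * η) * ℓ))).card : ℕ) : ℝ) ≤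
      (∑ j : Fin 3, C0 j) * B := by
    refine le_trans (Nat.cast_le.mpr Finset.card_biUnion_le) ?_
    rw [Nat.cast_sum, Finset.sum_mul]
    refine Finset.sum_le_sum fun j _ => ?_
    rw [hB]
    refine hcase0 j ℓ hℓ _ fun t ht => ?_
    obtain ⟨ht1, ht2⟩ := Finset.mem_filter.mp ht
    obtain ⟨n0, n1, hR, hlow, hup⟩ := hW t ht1
    have hsum := (rj_sum n0 n1).trans hR
    refine ⟨n0, n1, hup, ?_, ht2⟩
    have p0 := rj_nonneg 0 t Set.univ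
    have p1 := rj_nonneg 1 t Set.univ
    have p2 := rj_nonneg 2 t Set.univ
    have hgen : ∀ i : Fin 3, rj i t Set.univ ≤ ℓ := by
      intro i
      fin_cases i
      · change rj 0 t Set.univ ≤ _
        linarith
      · change rj 1 t Set.univ ≤ _
        linarith
      · change rj 2 t Set.univ ≤ _
        linarith
    exact hgen _
  have b1 : (((((univ : Finset (Fin 3)) ×ˢ range E0).biUnion (fun q => W.filter (fun t =>
      2 ≤ q.2 ∧ (∀ i, rj i t Set.univ ≤ (1 / 3 + 2 * η) * ℓ) ∧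
        16 * η * ℓ ≤ rj (q.1 + 1) t {q.2}))).card : ℕ) : ℝ) ≤
      (∑ q ∈ (univ : Finset (Fin 3)) ×ˢ range E0, C1 q) * B := by
    refine le_trans (Nat.cast_le.mpr Finset.card_biUnion_le) ?_
    rw [Nat.cast_sum, Finset.sum_mul]
    refine Finset.sum_le_sum fun q _ => ?_
    by_cases hq : 2 ≤ q.2
    · rw [hB]
      refine hcase1 q hq ℓ hℓ _ fun t ht => ?_
      obtain ⟨ht1, -, ht3, ht4⟩ := Finset.mem_filter.mp ht
      obtain ⟨n0, n1, hR, hlow, hup⟩ := hW t ht1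
      exact ⟨n0, n1, hup, ht3, ht4⟩
    · rw [Finset.filter_eq_empty_iff.mpr (fun t _ h => hq h.1)]
      simp only [Finset.card_empty, Nat.cast_zero]
      rw [hB]
      exact mul_nonneg (hC1 q) (Real.exp_pos _).le
  have b2 : ((W.filter (fun t => (∀ i, rj i t Set.univ ≤ (1 / 3 + 2 * η) * ℓ) ∧
        (∀ i, rj i t {1}ᶜ ≤ d / 12 * ℓ))).card : ℝ) ≤ C2 * B := by
    rw [hB]
    refine hcase2 ℓ hℓ _ fun t ht => ?_
    obtain ⟨ht1, ht2, ht3⟩ := Finset.mem_filter.mp ht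
    obtain ⟨n0, n1, hR, hlow, hup⟩ := hW t ht1
    refine ⟨n0, n1, le_trans ?_ hlow, hup, ht2, ht3⟩
    exact mul_le_mul_of_nonneg_right (by linarith) hℓ
  rw [← hB]
  have h1 := Finset.card_le_card hcov
  have h2 := (h1.trans (Finset.card_union_le _ _)).trans
    (Nat.add_le_add_left (Finset.card_union_le _ _) _)
  have h3 : (W.card : ℝ) ≤ _ := Nat.cast_le.mpr h2
  refine h3.trans ?_
  rw [Nat.cast_add, Nat.cast_add]
  refine (add_le_add b0 (add_le_add b1 b2)).trans (le_of_eq ?_)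
  ring

end Pool.Agent.Work.MP_a793bb_nt
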