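import Pool.Agent.Work.MP_a793bb_nt.OrdM.PairM
import Pool.Agent.Work.MP_a793bb_nt.CountBlock

/-!
# Cauchy-Schwarz

Proof. `T` from `selmer_finite K` (`n = e`). Label of `s ∈ F`: `(A, B, t)`, `A = partI s {e}ᶜ ∈ idealsRad K (exp L) (exp α)` (`LP_side_a`,
`log_absNorm_partI`, `log_absNorm_radical_partI`), `B = numI s⁻¹ = partI s⁻¹ univ ∈ idealsRad K (exp L) (exp β)`, and `t ∈ T` with `s = s₀ t x ^ e`, where
`s₀ = s₀(A, B) ∈ F` is a fixed element with the same `A, B` (`val_div`, `selmer_finite`). The number of labels is at most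
`n = #T (C₁ exp (ε' L)) ^ 2 exp (α + β)`. By Cauchy-Schwarz (`Finset.inner_mul_le_norm_mul_norm`, `sq_sum_le_card_mul_sum_sq` :
`(∑ N_i) ^ 2 ≤ n ∑ N_i ^ 2`), `(#F) ^ 2 ≤ n #{(s, s') ∈ F × F, same label} = n (#F + #P)`, `P` the set of the pairs with `s ≠ s'`; they satisfy `PairD`
(`s / s' = (x / x') ^ e`), so `#P ≤ C exp (ε' L) exp (2 γ)` by `pair_count`.
-/

set_option autoImplicit false

namespace AbcOrdM

open Finset AbcRadK Pool.Agent.Work.MP_a793bb_nt Pool.Agent.Work.MP_a793bb_nt.BPlus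
  NumberField IsDedekindDomain Height

variable {K : Type*} [Field K] [NumberField K]

private theorem cs_finset {α β : Type*} [DecidableEq α] [DecidableEq β] (F : Finset α)
    (lab : α → β) : (F.card : ℝ) ^ 2 ≤ ((F.image lab).card : ℝ) *
      ((F.card : ℝ) + ((F ×ˢ F).filter fun q => lab q.1 = lab q.2 ∧ q.1 ≠ q.2).card) := by
  have h1 : (F.card : ℝ) = ∑ l ∈ F.image lab, ((F.filter fun s => lab s = l).card : ℝ) := by
    rw [Finset.card_eq_sum_card_image lab F]
    push_cast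
    rfl
  have h2 : (F.card : ℝ) ^ 2 ≤ ((F.image lab).card : ℝ) *
      ∑ l ∈ F.image lab, ((F.filter fun s => lab s = l).card : ℝ) ^ 2 := by
    conv_lhs => rw [h1]
    exact sq_sum_le_card_mul_sum_sq
  refine h2.trans (mul_le_mul_of_nonneg_left ?_ (by positivity))
  set E := (F ×ˢ F).filter fun q => lab q.1 = lab q.2 with hE
  have h3 : E.card = ∑ l ∈ F.image lab, (E.filter fun q => lab q.1 = l).card := by
    apply Finset.card_eq_sum_card_fiberwise
    intro q hq
    rw [hE] at hq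
    have hq' := Finset.mem_filter.1 (Finset.mem_coe.1 hq)
    exact Finset.mem_coe.2 (Finset.mem_image_of_mem _ (Finset.mem_product.1 hq'.1).1)
  have h4 : ∀ l, (E.filter fun q => lab q.1 = l) =
      (F.filter fun s => lab s = l) ×ˢ (F.filter fun s => lab s = l) := by
    intro l
    ext q
    simp only [hE, Finset.mem_filter, Finset.mem_product]
    constructor
    · rintro ⟨⟨⟨a, b⟩, c⟩, d⟩
      exact ⟨⟨a, d⟩, b, c ▸ d⟩
    · rintro ⟨⟨a, b⟩, c, d⟩
      exact ⟨⟨⟨a, c⟩, b.trans d.symm⟩, b⟩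
  have h5 : ∑ l ∈ F.image lab, ((F.filter fun s => lab s = l).card : ℝ) ^ 2 = E.card := by
    rw [h3]
    push_cast
    apply Finset.sum_congr rfl
    intro l _
    rw [h4, Finset.card_product]
    push_cast
    ring
  rw [h5]
  have h6 : E.card = (E.filter fun q => q.1 = q.2).card + (E.filter fun q => ¬ q.1 = q.2).card :=
    (Finset.card_filter_add_card_filter_not (fun q : α × α => q.1 = q.2)).symm
  have h7 : (E.filter fun q => q.1 = q.2).card ≤ F.card := by
    apply Finset.card_le_card_of_injOn Prod.fst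
    · intro q hq
      have hq1 := Finset.mem_filter.1 (Finset.mem_coe.1 hq)
      have hq2 := Finset.mem_filter.1 hq1.1
      exact (Finset.mem_product.1 hq2.1).1
    · intro q hq r hr hqr
      have hq1 := (Finset.mem_filter.1 (Finset.mem_coe.1 hq)).2
      have hr1 := (Finset.mem_filter.1 (Finset.mem_coe.1 hr)).2
      apply Prod.ext hqr
      rw [← hq1, ← hr1]
      exact hqr
  have h8 : (E.filter fun q => ¬ q.1 = q.2) =
      (F ×ˢ F).filter fun q => lab q.1 = lab q.2 ∧ q.1 ≠ q.2 := by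
    rw [hE, Finset.filter_filter]
  rw [h6, h8]
  push_cast
  have h9 : ((E.filter fun q => q.1 = q.2).card : ℝ) ≤ F.card := by exact_mod_cast h7
  linarith

omit [NumberField K] in
private theorem pow_quot {e : ℕ} {s s' t a b r : K} (h1 : s = t * a ^ e * r)
    (h2 : s' = t * b ^ e * r) (hb : b ≠ 0) : s = (a / b) ^ e * s' := by
  rw [h1, h2, div_pow]
  field_simp

theorem cs_count (K : Type*) [Field K] [NumberField K] (e : ℕ) (he : 2 ≤ e) (ε : ℝ)
    (hε : 0 < ε) :
    ∃ C : ℝ, 1 ≤ C ∧ ∀ L α β γ : ℝ, 0 ≤ L → 0 ≤ α → 0 ≤ β → 0 ≤ γ → ∀ F : Finset K,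
      (∀ s ∈ F, s ≠ 0 ∧ 1 + s ≠ 0 ∧ hs s ≤ L ∧ LR s {e}ᶜ ≤ α ∧ LR s⁻¹ Set.univ ≤ β ∧
        LR (1 + s) Set.univ ≤ γ) →
      (F.card : ℝ) ^ 2 ≤ C * Real.exp (ε * L) * Real.exp (α + β) *
        (F.card + Real.exp (2 * γ)) := by
  classical
  obtain ⟨T, hTfin, hT0, hsel⟩ := selmer_finite K (n := e) (by omega)
  obtain ⟨C₁, hC₁, hid⟩ := card_idealsRad_le K (δ := ε / 3) (by positivity)
  obtain ⟨C₂, hC₂, hpair⟩ := pair_count K e he (ε / 3) (by positivity)
  set τ : ℝ := (hTfin.toFinset.card : ℝ) + 1 with hτ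
  have hτ1 : 1 ≤ τ := by
    have : (0 : ℝ) ≤ (hTfin.toFinset.card : ℝ) := by positivity
    linarith
  refine ⟨C₁ * C₁ * τ * C₂, one_le_mul_of_one_le_of_one_le (one_le_mul_of_one_le_of_one_le
    (one_le_mul_of_one_le_of_one_le hC₁ hC₁) hτ1) hC₂, ?_⟩
  intro L α β γ hL hα hβ hγ F hF
  -- the base point of a class
  set lab₀ : K → Ideal (𝓞 K) × Ideal (𝓞 K) := fun s => (partI s {e}ᶜ, numI s⁻¹) with hlab₀
  have hbase : ∀ s ∈ F, ∃ r ∈ F, lab₀ r = lab₀ s := fun s hs => ⟨s, hs, rfl⟩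
  obtain ⟨base, hbase⟩ : ∃ base : Ideal (𝓞 K) × Ideal (𝓞 K) → K, ∀ s ∈ F,
      base (lab₀ s) ∈ F ∧ lab₀ (base (lab₀ s)) = lab₀ s := by
    refine ⟨fun l => if h : ∃ r ∈ F, lab₀ r = l then h.choose else 0, fun s hs => ?_⟩
    have h : ∃ r ∈ F, lab₀ r = lab₀ s := ⟨s, hs, rfl⟩
    simp only [dif_pos h]
    exact h.choose_spec
  have hcls : ∀ s ∈ F, ∃ t ∈ T, ∃ x : K, x ≠ 0 ∧ s / base (lab₀ s) = t * x ^ e := by
    intro s hs
    obtain ⟨h1, h2⟩ := hbase s hs
    have e1 := congrArg Prod.fst h2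
    have e2 := congrArg Prod.snd h2
    apply hsel
    · exact div_ne_zero (hF s hs).1 (hF _ h1).1
    · exact val_div e (hF s hs).1 (hF _ h1).1 e1.symm e2.symm
  choose! tt htt xx hxx0 hxx using hcls
  set lab : K → (Ideal (𝓞 K) × Ideal (𝓞 K)) × K := fun s => (lab₀ s, tt s) with hlab
  have hmain := cs_finset F lab
  -- the number of labels
  have hn : ((F.image lab).card : ℝ) ≤
      C₁ * C₁ * τ * Real.exp (ε / 3 * L) * Real.exp (ε / 3 * L) * Real.exp (α + β) := by
    set A := (finite_idealsRad (K := K) (Real.exp L) (Real.exp α)).toFinset with hA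
    set B := (finite_idealsRad (K := K) (Real.exp L) (Real.exp β)).toFinset with hB
    have hsub : F.image lab ⊆ (A ×ˢ B) ×ˢ hTfin.toFinset := by
      intro l hl
      obtain ⟨s, hs, rfl⟩ := Finset.mem_image.1 hl
      obtain ⟨h0, h1, h2, h3, h4, h5⟩ := hF s hs
      rw [Finset.mem_product, Finset.mem_product, Set.Finite.mem_toFinset,
        Set.Finite.mem_toFinset, Set.Finite.mem_toFinset]
      refine ⟨⟨?_, ?_⟩, htt s hs⟩
      · apply partI_mem h0 _ (Real.exp_pos _) _ h3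
        rw [Real.log_exp]
        exact (LP_side_a h0 _).trans h2
      · show numI s⁻¹ ∈ _
        rw [← partI_univ (inv_ne_zero h0)]
        apply partI_mem (inv_ne_zero h0) _ (Real.exp_pos _) _ h4
        rw [Real.log_exp]
        exact (LP_side_b h0 _).trans h2
    have hcount : ∀ ω : ℝ,
        ((finite_idealsRad (K := K) (Real.exp L) (Real.exp ω)).toFinset.card : ℝ) ≤
          C₁ * Real.exp (ε / 3 * L) * Real.exp ω := by
      intro ω
      rw [← Set.ncard_eq_toFinset_card _ (finite_idealsRad (K := K) (Real.exp L) (Real.exp ω))]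
      refine (hid (Real.exp L) (Real.exp ω) (Real.one_le_exp hL) (Real.exp_pos _).le).trans ?_
      rw [← Real.exp_mul, mul_comm L]
    calc ((F.image lab).card : ℝ) ≤ (((A ×ˢ B) ×ˢ hTfin.toFinset).card : ℝ) := by
          exact_mod_cast Finset.card_le_card hsub
      _ = (A.card : ℝ) * B.card * hTfin.toFinset.card := by
          rw [Finset.card_product, Finset.card_product]
          push_cast
          ring
      _ ≤ (C₁ * Real.exp (ε / 3 * L) * Real.exp α) * (C₁ * Real.exp (ε / 3 * L) * Real.exp β) *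
          τ := by
          have e1 := hcount α
          have e2 := hcount β
          have e3 : (hTfin.toFinset.card : ℝ) ≤ τ := by linarith
          gcongr
      _ = _ := by
          rw [Real.exp_add]
          ring
  -- the number of pairs
  have hP : (((F ×ˢ F).filter fun q => lab q.1 = lab q.2 ∧ q.1 ≠ q.2).card : ℝ) ≤
      C₂ * Real.exp (ε / 3 * L) * Real.exp (2 * γ) := by
    apply hpair L γ hL hγ
    intro q hq
    obtain ⟨hq1, hq2, hq3⟩ := Finset.mem_filter.1 hq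
    obtain ⟨hs, hs'⟩ := Finset.mem_product.1 hq1
    obtain ⟨a0, a1, a2, a3, a4, a5⟩ := hF _ hs
    obtain ⟨b0, b1, b2, b3, b4, b5⟩ := hF _ hs'
    have e1 : lab₀ q.1 = lab₀ q.2 := congrArg Prod.fst hq2
    have e2 : tt q.1 = tt q.2 := congrArg Prod.snd hq2
    refine ⟨a0, a1, b0, b1, hq3, a2, b2, congrArg Prod.fst e1, congrArg Prod.snd e1,
      ⟨xx q.1 / xx q.2, ?_⟩, a5, b5⟩
    have h1 := hxx _ hs
    have h2 := hxx _ hs'
    rw [← e1, ← e2] at h2
    have h3 := hxx0 _ hs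
    have h4 := hxx0 _ hs'
    have h5 : base (lab₀ q.1) ≠ 0 := (hF _ (hbase _ hs).1).1
    rw [div_eq_iff h5] at h1 h2
    exact pow_quot h1 h2 h4
  have hexp : 1 ≤ C₂ * Real.exp (ε / 3 * L) :=
    one_le_mul_of_one_le_of_one_le hC₂ (Real.one_le_exp (by positivity))
  calc (F.card : ℝ) ^ 2 ≤ ((F.image lab).card : ℝ) *
      ((F.card : ℝ) + ((F ×ˢ F).filter fun q => lab q.1 = lab q.2 ∧ q.1 ≠ q.2).card) := hmain
    _ ≤ (C₁ * C₁ * τ * Real.exp (ε / 3 * L) * Real.exp (ε / 3 * L) * Real.exp (α + β)) *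
        ((C₂ * Real.exp (ε / 3 * L)) * F.card + C₂ * Real.exp (ε / 3 * L) * Real.exp (2 * γ)) := by
        apply mul_le_mul hn _ (by positivity) (by positivity)
        have : (F.card : ℝ) ≤ (C₂ * Real.exp (ε / 3 * L)) * F.card :=
          le_mul_of_one_le_left (by positivity) hexp
        linarith
    _ = C₁ * C₁ * τ * C₂ * (Real.exp (ε / 3 * L) * Real.exp (ε / 3 * L) * Real.exp (ε / 3 * L)) *
        Real.exp (α + β) * (F.card + Real.exp (2 * γ)) := by ring
    _ = C₁ * C₁ * τ * C₂ * Real.exp (ε * L) * Real.exp (α + β) *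
        (F.card + Real.exp (2 * γ)) := by
        rw [← Real.exp_add, ← Real.exp_add]
        congr 3
        ring_nf

end AbcOrdM
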