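import Mathlib

/-!
# Roots of a polynomial

Proof. The elements of `S` are roots of `P = X ^ e - (X - C d) ^ e - C (c / α)`, which is not zero: its coefficient at
`X ^ (e - 1)` is `e d ≠ 0` if `e ≥ 3` (`e - 1 ≥ 1`; for `e = 2` it is `2 d` as well, since `e - 1 = 1 > 0`), and
`natDegree P ≤ e`. So `#S ≤ e`.
-/

set_option autoImplicit false

namespace AbcOrdM

open Polynomial in
theorem card_root_le {K : Type*} [Field K] [CharZero K] (e : ℕ) (he : 2 ≤ e) (α d c : K)
    (hα : α ≠ 0) (hd : d ≠ 0) (S : Finset K)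
    (h : ∀ y ∈ S, α * (y ^ e - (y - d) ^ e) = c) : S.card ≤ e := by
  classical
  set P : K[X] := X ^ e - (X - C d) ^ e - C (c / α) with hP
  have hcoef : P.coeff (e - 1) = e * d := by
    have h0 : (X - C d : K[X]) = X + C (-d) := by rw [C_neg, sub_eq_add_neg]
    rw [hP, coeff_sub, coeff_sub, coeff_X_pow, h0, coeff_X_add_C_pow, coeff_C,
      if_neg (by omega), if_neg (by omega)]
    have h1 : e - (e - 1) = 1 := by omega
    have h2 : e.choose (e - 1) = e := by
      rw [Nat.choose_symm (by omega : 1 ≤ e), Nat.choose_one_right]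
    rw [h1, h2]
    ring
  have hP0 : P ≠ 0 := by
    intro h0
    rw [h0, coeff_zero] at hcoef
    have : (e : K) ≠ 0 := by exact_mod_cast (by omega : e ≠ 0)
    exact mul_ne_zero this hd hcoef.symm
  have hdeg : P.natDegree ≤ e := by
    rw [hP]
    refine (natDegree_sub_le _ _).trans (max_le ((natDegree_sub_le _ _).trans (max_le ?_ ?_)) ?_)
    · simp
    · refine natDegree_pow_le.trans ?_
      rw [natDegree_X_sub_C, mul_one]
    · rw [natDegree_C]; omega
  have hsub : S ⊆ P.roots.toFinset := by
    intro y hy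
    rw [Multiset.mem_toFinset, mem_roots hP0, IsRoot.def, hP]
    simp only [eval_sub, eval_pow, eval_X, eval_C]
    have := h y hy
    rw [← this]
    field_simp
    ring
  calc S.card ≤ P.roots.toFinset.card := Finset.card_le_card hsub
    _ ≤ Multiset.card P.roots := Multiset.toFinset_card_le _
    _ ≤ P.natDegree := card_roots' P
    _ ≤ e := hdeg

end AbcOrdM
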