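import Pool.Agent.Work.MP_a793bb_nt.OrdM.DefsM
import Pool.Agent.Work.MP_a793bb_nt.Units

/-!
# Elements of bounded height with given valuations

Proof. If `S` is not empty fix `x₀ ∈ S`. For `x ∈ S`, `kp p (x / x₀) = 0` for all `p`, so `x / x₀` is a unit of the ring of
integers (`exists_unit_of_kp_eq_zero` in `Selmer.lean`), and
`log (v (x / x₀)) ≤ logHeight₁ (x / x₀) ≤ logHeight₁ x + logHeight₁ x₀ ≤ 2 H` for every infinite place (`ht_eq` in
`RadK/HtEq.lean`: all terms are `≥ 0`, `v.mult ≥ 1`). `card_units_le` gives `#S ≤ C₁ (1 + 2 H) ^ r ≤ C exp (ε H)`.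
-/

set_option autoImplicit false

namespace AbcOrdM

open Finset AbcRadK Pool.Agent.Work.MP_a793bb_nt Pool.Agent.Work.MP_a793bb_nt.BPlus
  NumberField IsDedekindDomain Height

variable {K : Type*} [Field K] [NumberField K]

private theorem log_inf_le (x : K) (v : InfinitePlace K) : Real.log (v x) ≤ logHeight₁ x := by
  rcases eq_or_ne x 0 with rfl | hx
  · simp
  rw [ht_eq x (finite_Zp (inv_ne_zero hx)).toFinset (fun p hp => by
    rw [Set.Finite.mem_toFinset]
    show av p x⁻¹ < 1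
    rw [av_inv]
    exact inv_lt_one_of_one_lt₀ hp)]
  have h0 : ∀ y : ℝ, 0 ≤ Real.log (max 1 y) := fun y => Real.log_nonneg (le_max_left 1 y)
  have h1 : Real.log (v x) ≤ (v.mult : ℝ) * Real.log (max 1 (v x)) := by
    have hv : 0 < v x := v.pos_iff.2 hx
    have h2 : Real.log (v x) ≤ Real.log (max 1 (v x)) := Real.log_le_log hv (le_max_right _ _)
    have h3 : (1 : ℝ) ≤ (v.mult : ℝ) := by exact_mod_cast InfinitePlace.one_le_mult
    nlinarith [h0 (v x)]
  have h2 : (v.mult : ℝ) * Real.log (max 1 (v x)) ≤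
      ∑ v : InfinitePlace K, (v.mult : ℝ) * Real.log (max 1 (v x)) :=
    Finset.single_le_sum (f := fun v : InfinitePlace K => (v.mult : ℝ) * Real.log (max 1 (v x)))
      (fun w _ => mul_nonneg (by positivity) (h0 _)) (mem_univ v)
  have h3 : 0 ≤ ∑ p ∈ (finite_Zp (inv_ne_zero hx)).toFinset, Real.log (max 1 (av p x)) :=
    Finset.sum_nonneg fun p _ => h0 _
  linarith

private theorem poly_le_exp (r : ℕ) {ε : ℝ} (hε : 0 < ε) : ∃ C : ℝ, 1 ≤ C ∧ ∀ H : ℝ, 0 ≤ H →
    (1 + 2 * H) ^ r ≤ C * Real.exp (ε * H) := by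
  set k : ℝ := (r : ℝ) + 1 with hk
  have hk0 : 0 < k := by positivity
  set M : ℝ := max 1 (2 * k / ε) with hM
  have hM1 : 1 ≤ M := le_max_left _ _
  refine ⟨M ^ (r + 1), one_le_pow₀ hM1, fun H hH => ?_⟩
  have h1 : 1 + 2 * H ≤ M * Real.exp (ε * H / k) := by
    have h2 : ε * H / k + 1 ≤ Real.exp (ε * H / k) := Real.add_one_le_exp _
    have h3 : 2 * H ≤ M * (ε * H / k) := by
      have : 2 * k / ε ≤ M := le_max_right _ _
      have h4 : 0 ≤ ε * H / k := by positivity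
      calc 2 * H = 2 * k / ε * (ε * H / k) := by field_simp
        _ ≤ M * (ε * H / k) := mul_le_mul_of_nonneg_right this h4
    have h5 : M * (ε * H / k + 1) ≤ M * Real.exp (ε * H / k) :=
      mul_le_mul_of_nonneg_left h2 (by linarith)
    linarith
  calc (1 + 2 * H) ^ r ≤ (1 + 2 * H) ^ (r + 1) := pow_le_pow_right₀ (by linarith) (by omega)
    _ ≤ (M * Real.exp (ε * H / k)) ^ (r + 1) := pow_le_pow_left₀ (by linarith) h1 _
    _ = M ^ (r + 1) * Real.exp (ε * H) := by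
        rw [mul_pow, ← Real.exp_nat_mul]
        congr 2
        push_cast
        rw [← hk]
        field_simp

theorem card_same_val (K : Type*) [Field K] [NumberField K] (ε : ℝ) (hε : 0 < ε) :
    ∃ C : ℝ, 1 ≤ C ∧ ∀ H : ℝ, 0 ≤ H → ∀ S : Finset K,
      (∀ x ∈ S, x ≠ 0 ∧ logHeight₁ x ≤ H) →
      (∀ x ∈ S, ∀ y ∈ S, ∀ p : HeightOneSpectrum (𝓞 K), kp p x = kp p y) →
      (S.card : ℝ) ≤ C * Real.exp (ε * H) := by
  obtain ⟨C₁, hC₁, hu⟩ := card_units_le (K := K)
  obtain ⟨C₂, hC₂, hp⟩ := poly_le_exp (Units.rank K) hε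
  refine ⟨max 1 (C₁ * C₂), le_max_left _ _, fun H hH S hS hval => ?_⟩
  rcases S.eq_empty_or_nonempty with rfl | ⟨x₀, hx₀⟩
  · simp only [card_empty, Nat.cast_zero]
    positivity
  obtain ⟨h0, hH0⟩ := hS x₀ hx₀
  have key : ∀ x ∈ S, ∃ u : (𝓞 K)ˣ, x / x₀ = u := by
    intro x hx
    apply exists_unit_of_kp_eq_zero (div_ne_zero (hS x hx).1 h0)
    intro p
    rw [kp_div p (hS x hx).1 h0, hval x hx x₀ hx₀ p, sub_self]
  choose! f hf using key
  have h1 : (S : Set K).ncard ≤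
      {u : (𝓞 K)ˣ | ∀ v : InfinitePlace K, Real.log (v (u : K)) ≤ 2 * H}.ncard := by
    refine Set.ncard_le_ncard_of_injOn f ?_ ?_ (hu (2 * H) (by linarith)).1
    · intro x hx v
      rw [← hf x hx]
      refine (log_inf_le _ v).trans ?_
      rw [div_eq_mul_inv]
      refine (logHeight₁_mul_le _ _).trans ?_
      rw [logHeight₁_inv]
      have := (hS x hx).2
      linarith
    · intro x hx y hy hxy
      have e1 := hf x hx
      have e2 := hf y hy
      rw [hxy, ← e2] at e1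
      field_simp at e1
      exact e1
  rw [Set.ncard_coe_finset] at h1
  have h2 : (S.card : ℝ) ≤ C₁ * (1 + 2 * H) ^ (Units.rank K) :=
    le_trans (by exact_mod_cast h1) (hu (2 * H) (by linarith)).2
  calc (S.card : ℝ) ≤ C₁ * (1 + 2 * H) ^ (Units.rank K) := h2
    _ ≤ C₁ * (C₂ * Real.exp (ε * H)) := mul_le_mul_of_nonneg_left (hp H hH) hC₁.le
    _ = C₁ * C₂ * Real.exp (ε * H) := by ring
    _ ≤ max 1 (C₁ * C₂) * Real.exp (ε * H) :=
        mul_le_mul_of_nonneg_right (le_max_right _ _) (Real.exp_pos _).le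

end AbcOrdM
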