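import Pool.Agent.Work.MP_a793bb_nt.OrdM.DefsM

/-!
# Valuations

Proofs. `kp_sub_ge`: `av_add_le`, `log_av` (or `av_eq_zpow`). `kp_geom_ge`: by `kp_sub_ge`-type estimates and
induction (the sum may be zero, then `kp = 0` by definition: hence the hypothesis that it is not). For a
prime `p` the three numbers `kp p s, kp p (1 + s)` satisfy (`kp_cases` in `KeyLemma.lean`): `kp p s > 0`, `kp p (1 + s) = 0`, or
`kp p s = kp p (1 + s) < 0`, or `kp p s = 0`, `kp p (1 + s) ≥ 0`. `ex (numI y) p = (kp p y).toNat` (`ex_numI'`),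
`ex_partI` for `partI`. `val_u`: by `hB` the negative values of `kp p (1 + s)`, `kp p (1 + s')` agree. `val_f'`: if
`kp p s' < 0` then `kp p s' = kp p s = kp p (1 + s)` by `hB`; if `kp p s' ≥ 0` then `kp p s ≥ 0`.
`val_A`: for `kp p s > 0`, `kp p s ≠ e`, the exponents in `partI s {e}ᶜ` and `numI s` agree; for `kp p s = e` the first is `0`.
`val_div`: for two elements with the same `partI _ {e}ᶜ` and the same `numI _⁻¹`.
-/

set_option autoImplicit false

namespace AbcOrdM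

open Finset AbcRadK Pool.Agent.Work.MP_a793bb_nt Pool.Agent.Work.MP_a793bb_nt.BPlus
  NumberField IsDedekindDomain Height

variable {K : Type*} [Field K] [NumberField K]

private theorem val_le_iff (p : HeightOneSpectrum (𝓞 K)) {x : K} (hx : x ≠ 0) (m : ℤ) :
    p.valuation K x ≤ WithZero.exp (-m) ↔ m ≤ kp p x := by
  rw [valuation_eq_exp p hx, WithZero.exp_le_exp]
  omega

private theorem kp_tri (p : HeightOneSpectrum (𝓞 K)) {s : K} (n0 : s ≠ 0) (n1 : 1 + s ≠ 0) :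
    (0 < kp p s ∧ kp p (1 + s) = 0) ∨ (kp p s < 0 ∧ kp p (1 + s) = kp p s) ∨
      (kp p s = 0 ∧ 0 ≤ kp p (1 + s)) := by
  have a1 := av_lt_one_iff_kp p n0
  have a2 := av_one_iff_kp p n0
  have b1 := av_lt_one_iff_kp p n1
  have b2 := av_one_iff_kp p n1
  rcases kp_cases p s with ⟨h1, h2⟩ | ⟨h1, h2⟩ | ⟨h1, h2⟩
  · left
    exact ⟨a1.1 h1, b2.1 h2⟩
  · right; left
    refine ⟨?_, kp_eq_of_av_eq p h2⟩
    by_contra hc
    rcases lt_or_eq_of_le (not_lt.1 hc) with h | h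
    · exact absurd (a1.2 h) (by linarith)
    · exact absurd (a2.2 h.symm) (by linarith)
  · right; right
    refine ⟨a2.1 h1, ?_⟩
    rcases lt_or_eq_of_le h2 with h | h
    · exact (b1.1 h).le
    · exact (b2.1 h).ge

private theorem inv_toNat {s s' : K} (n0 : s ≠ 0) (n0' : s' ≠ 0) (hB : numI s⁻¹ = numI s'⁻¹)
    (p : HeightOneSpectrum (𝓞 K)) : (-kp p s).toNat = (-kp p s').toNat := by
  have h := congrArg (fun I => ex I p) hB
  rw [ex_numI' (inv_ne_zero n0), ex_numI' (inv_ne_zero n0')] at h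
  have e1 : kp p s⁻¹ = -kp p s := by
    rw [kp, kp, map_inv₀, WithZero.log_inv]
  have e2 : kp p s'⁻¹ = -kp p s' := by
    rw [kp, kp, map_inv₀, WithZero.log_inv]
  rw [e1, e2] at h
  exact h

theorem kp_sub_ge (p : HeightOneSpectrum (𝓞 K)) {x y : K} (hx : x ≠ 0) (hy : y ≠ 0)
    (hxy : x - y ≠ 0) : min (kp p x) (kp p y) ≤ kp p (x - y) := by
  rw [← val_le_iff p hxy]
  refine ((p.valuation K).map_sub x y).trans ?_
  rw [max_le_iff, val_le_iff p hx, val_le_iff p hy]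
  exact ⟨min_le_left _ _, min_le_right _ _⟩

theorem kp_geom_ge (p : HeightOneSpectrum (𝓞 K)) {x y : K} (hx : x ≠ 0) (hy : y ≠ 0) (b : ℤ)
    (hbx : b ≤ kp p x) (hby : b ≤ kp p y) (n : ℕ)
    (h : ∑ i ∈ range (n + 1), x ^ i * y ^ (n - i) ≠ 0) :
    n * b ≤ kp p (∑ i ∈ range (n + 1), x ^ i * y ^ (n - i)) := by
  rw [← val_le_iff p h]
  apply Valuation.map_sum_le
  intro i hi
  have hi' : i ≤ n := by
    have := mem_range.1 hi
    omega
  have hne : x ^ i * y ^ (n - i) ≠ 0 := mul_ne_zero (pow_ne_zero _ hx) (pow_ne_zero _ hy)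
  rw [val_le_iff p hne, kp_mul p (pow_ne_zero _ hx) (pow_ne_zero _ hy), kp_pow p hx, kp_pow p hy]
  obtain ⟨j, rfl⟩ := Nat.exists_eq_add_of_le hi'
  rw [Nat.add_sub_cancel_left]
  push_cast
  have h1 : (i : ℤ) * b ≤ i * kp p x := mul_le_mul_of_nonneg_left hbx (by positivity)
  have h2 : (j : ℤ) * b ≤ j * kp p y := mul_le_mul_of_nonneg_left hby (by positivity)
  linarith

theorem val_u {e : ℕ} {L γ : ℝ} {s s' : K} (h : PairD e L γ s s')
    (p : HeightOneSpectrum (𝓞 K)) :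
    kp p ((1 + s) / (1 + s')) = (ex (numI (1 + s)) p : ℤ) - ex (numI (1 + s')) p := by
  rw [kp_div p h.n1 h.n1', ex_numI' h.n1, ex_numI' h.n1']
  have h1 := inv_toNat h.n0 h.n0' h.hB p
  have h2 := kp_tri p h.n0 h.n1
  have h3 := kp_tri p h.n0' h.n1'
  omega

theorem val_f {s : K} (n0 : s ≠ 0) (n1 : 1 + s ≠ 0) (p : HeightOneSpectrum (𝓞 K)) :
    kp p (s / (1 + s)) = (ex (numI s) p : ℤ) - ex (numI (1 + s)) p := by
  rw [kp_div p n0 n1, ex_numI' n0, ex_numI' n1]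
  have h2 := kp_tri p n0 n1
  omega

theorem val_f' {e : ℕ} {L γ : ℝ} {s s' : K} (h : PairD e L γ s s')
    (p : HeightOneSpectrum (𝓞 K)) :
    kp p (s' / (1 + s)) = (ex (numI s') p : ℤ) - ex (numI (1 + s)) p := by
  rw [kp_div p h.n0' h.n1, ex_numI' h.n0', ex_numI' h.n1]
  have h1 := inv_toNat h.n0 h.n0' h.hB p
  have h2 := kp_tri p h.n0 h.n1
  omega

theorem val_A (e : ℕ) {s : K} (n0 : s ≠ 0) (p : HeightOneSpectrum (𝓞 K)) :
    ex (numI s) p = ex (partI s {e}ᶜ) p ∨ ex (numI s) p = ex (partI s {e}ᶜ) p + e := by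
  rw [ex_numI' n0, ex_partI n0, pe]
  split_ifs with h
  · left; rfl
  · rw [not_and_or] at h
    rcases h with h | h
    · left; omega
    · right
      have : (kp p s).toNat = e := by
        by_contra hc
        exact h (by simpa using hc)
      omega

theorem val_div (e : ℕ) {s s' : K} (n0 : s ≠ 0) (n0' : s' ≠ 0)
    (hA : partI s {e}ᶜ = partI s' {e}ᶜ) (hB : numI s⁻¹ = numI s'⁻¹)
    (p : HeightOneSpectrum (𝓞 K)) : (e : ℤ) ∣ kp p (s / s') := by
  have h1 := inv_toNat n0 n0' hB p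
  have h2 := val_A e n0 p
  have h3 := val_A e n0' p
  rw [← hA] at h3
  rw [ex_numI' n0] at h2
  rw [ex_numI' n0'] at h3
  rw [kp_div p n0 n0']
  generalize ex (partI s {e}ᶜ) p = A at h2 h3
  have h4 : kp p s - kp p s' = 0 ∨ kp p s - kp p s' = e ∨ kp p s - kp p s' = -e := by omega
  rcases h4 with h | h | h <;> rw [h]
  · exact dvd_zero _
  · exact dvd_neg.2 dvd_rfl

/-- The difference `s / (1 + s) - s' / (1 + s)` is `1 - u⁻¹`, and `A` divides its numerator times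
`numI (1 + s)`. -/
theorem val_c {e : ℕ} {L γ : ℝ} {s s' : K} (h : PairD e L γ s s') :
    s / (1 + s) - s' / (1 + s) = 1 - ((1 + s) / (1 + s'))⁻¹ ∧
    1 - ((1 + s) / (1 + s'))⁻¹ ≠ 0 ∧
    ∀ p : HeightOneSpectrum (𝓞 K), (ex (partI s {e}ᶜ) p : ℤ) ≤
      kp p (1 - ((1 + s) / (1 + s'))⁻¹) + ex (numI (1 + s)) p := by
  have h1 : s / (1 + s) - s' / (1 + s) = 1 - ((1 + s) / (1 + s'))⁻¹ := by
    rw [inv_div]
    field_simp [h.n1]
    ring
  have h2 : 1 - ((1 + s) / (1 + s'))⁻¹ ≠ 0 := by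
    rw [← h1, ← sub_div]
    exact div_ne_zero (sub_ne_zero.2 h.ne) h.n1
  refine ⟨h1, h2, fun p => ?_⟩
  rw [← h1] at h2 ⊢
  have h3 := kp_sub_ge p (div_ne_zero h.n0 h.n1) (div_ne_zero h.n0' h.n1) h2
  rw [val_f h.n0 h.n1 p, val_f' h p] at h3
  have h4 := val_A e h.n0 p
  have h5 := val_A e h.n0' p
  rw [← h.hA] at h5
  omega

end AbcOrdM
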