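import Pool.Agent.Work.MP_a793bb_nt.RadK.CostK
import Pool.Agent.Work.MP_a793bb_nt.RadK.HtEq

/-!
# Definitions for the count of the points of bounded height

`s` is a parameter (`s ≠ 0`, `1 + s ≠ 0`), with the three sides `s` (numerator ideal `numI s`), `s⁻¹`
(`numI s⁻¹`) and `1 + s` (`numI (1 + s)`); these three ideals are coprime in pairs.
`partI s {e}ᶜ` is the part of `numI s` whose exponents are different from `e`; so `numI s` is
`partI s {e}ᶜ` times the `e`-th power of a squarefree ideal coprime to it. `LR y E` is the sum of the `lN p` over the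
primes whose exponent in `y` is positive and lies in `E`, `LP y E` the same weighted with the exponent.
-/

set_option autoImplicit false

namespace AbcOrdM

open Finset AbcRadK Pool.Agent.Work.MP_a793bb_nt Pool.Agent.Work.MP_a793bb_nt.BPlus
  NumberField IsDedekindDomain Height

variable {K : Type*} [Field K] [NumberField K]

/-- Two solutions with the same `partI s {e}ᶜ`, the same `numI s⁻¹` and quotient an `e`-th power. -/
structure PairD (e : ℕ) (L γ : ℝ) (s s' : K) : Prop where
  n0 : s ≠ 0
  n1 : 1 + s ≠ 0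
  n0' : s' ≠ 0
  n1' : 1 + s' ≠ 0
  ne : s ≠ s'
  hL : hs s ≤ L
  hL' : hs s' ≤ L
  hA : partI s {e}ᶜ = partI s' {e}ᶜ
  hB : numI s⁻¹ = numI s'⁻¹
  hz : ∃ z : K, s = z ^ e * s'
  hC : LR (1 + s) Set.univ ≤ γ
  hC' : LR (1 + s') Set.univ ≤ γ

end AbcOrdM
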