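import Pool.Agent.Work.MP_a793bb_nt.OrdM.UnitC
import Pool.Agent.Work.MP_a793bb_nt.OrdM.RootC
import Pool.Agent.Work.MP_a793bb_nt.OrdM.ValM
import Pool.Agent.Work.MP_a793bb_nt.RatioCount

/-!
# The equation `α (y ^ e - y' ^ e) = c`

Proof. Let `d = y - y'`; `d ≠ 0` since `c ≠ 0`. `b p ≤ kp p d` (`kp_sub_ge`). `y ^ e - y' ^ e = d Σ`,
`Σ = ∑_{i < e} y ^ i y' ^ (e - 1 - i)` (`Commute.mul_geom_sum₂` or `Finset.sum` version), `kp p Σ ≥ (e - 1) b p` (`kp_geom_ge`), so
`kp p d = kp p c - kp p α - kp p Σ ≤ b p + ex N p`. Let `D(y, y') = ∏_{p ∣ N} p ^ (kp p d - b p)` (natural exponents at most `ex N p`), a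
divisor of `N` with `ex D p = (kp p d - b p).toNat` for all `p` (`ex_prod` in `Parts.lean`). By `card_dvd_le` it takes at most
`C₁ N(N) ^ ε` values. On a fibre of `D` all `d` have the same valuations and height at most
`2 H + (finrank)` (`logHeight₁_sub_le`), so by `card_same_val` there are at most `C₂ exp ((ε / 2) (2 H + finrank))` values of `d`. For given
`d`, `y` is one of at most `e` elements (`card_root_le`), and `y' = y - d`.
-/

set_option autoImplicit false

namespace AbcOrdM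

open Finset AbcRadK Pool.Agent.Work.MP_a793bb_nt Pool.Agent.Work.MP_a793bb_nt.BPlus
  NumberField IsDedekindDomain Height

variable {K : Type*} [Field K] [NumberField K]

private theorem card_fib_le {α β : Type*} [DecidableEq β] (s : Finset α) (f : α → β) (B : ℝ)
    (hB : ∀ b ∈ s.image f, ((s.filter fun a => f a = b).card : ℝ) ≤ B) :
    (s.card : ℝ) ≤ (s.image f).card * B := by
  rw [Finset.card_eq_sum_card_image f s]
  push_cast
  calc ∑ b ∈ s.image f, ((s.filter fun a => f a = b).card : ℝ) ≤ ∑ _b ∈ s.image f, B :=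
        Finset.sum_le_sum hB
    _ = (s.image f).card * B := by rw [Finset.sum_const, nsmul_eq_mul]

private theorem kp_diff {e : ℕ} (he : 2 ≤ e) {α c y y' : K} (hα : α ≠ 0) (hc : c ≠ 0)
    (hy : y ≠ 0) (hy' : y' ≠ 0) (h : α * (y ^ e - y' ^ e) = c) : y - y' ≠ 0 ∧
    ∀ (p : HeightOneSpectrum (𝓞 K)) (b : ℤ), b ≤ kp p y → b ≤ kp p y' →
      b ≤ kp p (y - y') ∧ kp p (y - y') ≤ kp p c - kp p α - (e - 1) * b := by
  obtain ⟨n, rfl⟩ : ∃ n, e = n + 1 := ⟨e - 1, by omega⟩
  have hgeom : (y - y') * ∑ i ∈ range (n + 1), y ^ i * y' ^ (n - i) = y ^ (n + 1) - y' ^ (n + 1) := by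
    have := (Commute.all y y').mul_geom_sum₂ (n + 1)
    simpa using this
  have hne : (y - y') * ∑ i ∈ range (n + 1), y ^ i * y' ^ (n - i) ≠ 0 := by
    rw [hgeom]
    intro h0
    rw [h0, mul_zero] at h
    exact hc h.symm
  have h1 := left_ne_zero_of_mul hne
  have h2 := right_ne_zero_of_mul hne
  refine ⟨h1, fun p b hb hb' => ⟨?_, ?_⟩⟩
  · have := kp_sub_ge p hy hy' h1
    omega
  · have h3 := kp_geom_ge p hy hy' b hb hb' n h2
    have h4 : kp p c = kp p α + (kp p (y - y') +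
        kp p (∑ i ∈ range (n + 1), y ^ i * y' ^ (n - i))) := by
      rw [← kp_mul p h1 h2, ← kp_mul p hα hne, hgeom, h]
    push_cast
    have h5 : ((n : ℤ) + 1 - 1) * b = n * b := by ring
    rw [h5]
    omega

theorem core_count (K : Type*) [Field K] [NumberField K] (e : ℕ) (he : 2 ≤ e) (ε : ℝ)
    (hε : 0 < ε) :
    ∃ C : ℝ, 1 ≤ C ∧ ∀ (H : ℝ) (α c : K) (b : HeightOneSpectrum (𝓞 K) → ℤ) (N : Ideal (𝓞 K)),
      0 ≤ H → α ≠ 0 → c ≠ 0 → N ≠ ⊥ →
      (∀ p : HeightOneSpectrum (𝓞 K), kp p c - kp p α - e * b p ≤ ex N p) →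
      ∀ S : Finset (K × K), (∀ q ∈ S, q.1 ≠ 0 ∧ q.2 ≠ 0 ∧ α * (q.1 ^ e - q.2 ^ e) = c ∧
        logHeight₁ q.1 ≤ H ∧ logHeight₁ q.2 ≤ H ∧
        (∀ p : HeightOneSpectrum (𝓞 K), b p ≤ kp p q.1 ∧ b p ≤ kp p q.2)) →
      (S.card : ℝ) ≤ C * (Ideal.absNorm N : ℝ) ^ ε * Real.exp (ε * H) := by
  classical
  obtain ⟨C₁, hC₁, hdvd⟩ := card_dvd_le K hε
  obtain ⟨C₂, hC₂, hval⟩ := card_same_val K (ε / 2) (by positivity)
  set dg : ℝ := (Module.finrank ℚ K : ℝ) with hdg
  have hdg0 : 0 ≤ dg := by positivity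
  have hexp1 : 1 ≤ Real.exp (ε / 2 * dg) := Real.one_le_exp (by positivity)
  have he1 : (1 : ℝ) ≤ e := by exact_mod_cast (by omega : 1 ≤ e)
  refine ⟨C₁ * (C₂ * Real.exp (ε / 2 * dg) * e), ?_, ?_⟩
  · exact one_le_mul_of_one_le_of_one_le hC₁
      (one_le_mul_of_one_le_of_one_le (one_le_mul_of_one_le_of_one_le hC₂ hexp1) he1)
  intro H α c b N hH hα hc hN hb S hS
  set P := (finite_dvd hN).toFinset with hP
  set D : K × K → Ideal (𝓞 K) := fun q => ∏ p ∈ P, p.asIdeal ^ (kp p (q.1 - q.2) - b p).toNat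
    with hD
  -- facts on the elements of `S`
  have hfact : ∀ q ∈ S, q.1 - q.2 ≠ 0 ∧ ∀ p : HeightOneSpectrum (𝓞 K),
      b p ≤ kp p (q.1 - q.2) ∧ kp p (q.1 - q.2) ≤ b p + ex N p := by
    intro q hq
    obtain ⟨h1, h2, h3, h4, h5, h6⟩ := hS q hq
    obtain ⟨h7, h8⟩ := kp_diff he hα hc h1 h2 h3
    refine ⟨h7, fun p => ?_⟩
    obtain ⟨h9, h10⟩ := h8 p (b p) (h6 p).1 (h6 p).2
    refine ⟨h9, h10.trans ?_⟩
    have h11 := hb p
    have h12 : ((e : ℤ) - 1) * b p = e * b p - b p := by ring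
    rw [h12]
    omega
  have hexD : ∀ q ∈ S, ∀ p : HeightOneSpectrum (𝓞 K),
      (ex (D q) p : ℤ) = kp p (q.1 - q.2) - b p := by
    intro q hq p
    obtain ⟨-, h1⟩ := hfact q hq
    obtain ⟨h2, h3⟩ := h1 p
    rw [hD]
    simp only []
    rw [ex_prod]
    by_cases hp : p ∈ P
    · rw [if_pos hp]
      omega
    · rw [if_neg hp]
      have h4 : ex N p = 0 := by
        apply ex_eq_zero
        intro h5
        exact hp (by rw [hP, Set.Finite.mem_toFinset]; exact h5)
      omega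
  have hDdvd : ∀ q ∈ S, D q ∣ N := by
    intro q hq
    rw [← prod_ex hN P (fun p hp => by rw [hP, Set.Finite.mem_toFinset]; exact hp)]
    apply Finset.prod_dvd_prod_of_dvd
    intro p _
    apply pow_dvd_pow
    have := (hfact q hq).2 p
    omega
  obtain ⟨hfin, hcard⟩ := hdvd N hN
  have hN1 : 1 ≤ (Ideal.absNorm N : ℝ) := one_le_absNorm K hN
  have himg : ((S.image D).card : ℝ) ≤ C₁ * (Ideal.absNorm N : ℝ) ^ ε := by
    refine le_trans ?_ hcard
    rw [Set.ncard_eq_toFinset_card _ hfin]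
    exact_mod_cast Finset.card_le_card (fun I hI => by
      obtain ⟨q, hq, rfl⟩ := Finset.mem_image.1 hI
      rw [Set.Finite.mem_toFinset]
      exact hDdvd q hq)
  -- the fibres of `D`
  have hfib : ∀ I ∈ S.image D, ((S.filter fun q => D q = I).card : ℝ) ≤
      C₂ * Real.exp (ε / 2 * dg) * e * Real.exp (ε * H) := by
    intro I _
    set S' := S.filter fun q => D q = I with hS'
    have hsub : ∀ q ∈ S', q ∈ S ∧ D q = I := fun q hq => Finset.mem_filter.1 hq
    have h1 : ((S'.image fun q => q.1 - q.2).card : ℝ) ≤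
        C₂ * Real.exp (ε / 2 * (2 * H + dg)) := by
      apply hval (2 * H + dg) (by positivity)
      · intro x hx
        obtain ⟨q, hq, rfl⟩ := Finset.mem_image.1 hx
        obtain ⟨hq1, -⟩ := hsub q hq
        refine ⟨(hfact q hq1).1, ?_⟩
        obtain ⟨-, -, -, h4, h5, -⟩ := hS q hq1
        refine (logHeight₁_sub_le q.1 q.2).trans ?_
        rw [NumberField.totalWeight_eq_finrank, ← hdg]
        have h2 : Real.log 2 ≤ 1 := by
          have := Real.log_two_lt_d9
          linarith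
        nlinarith
      · intro x hx y hy p
        obtain ⟨q, hq, rfl⟩ := Finset.mem_image.1 hx
        obtain ⟨r, hr, rfl⟩ := Finset.mem_image.1 hy
        obtain ⟨hq1, hq2⟩ := hsub q hq
        obtain ⟨hr1, hr2⟩ := hsub r hr
        have e1 := hexD q hq1 p
        have e2 := hexD r hr1 p
        rw [hq2] at e1
        rw [hr2] at e2
        show kp p (q.1 - q.2) = kp p (r.1 - r.2)
        omega
    have h2 : ∀ d ∈ S'.image (fun q => q.1 - q.2),
        ((S'.filter fun q => q.1 - q.2 = d).card : ℝ) ≤ e := by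
      intro d hd
      have hd0 : d ≠ 0 := by
        obtain ⟨q, hq, rfl⟩ := Finset.mem_image.1 hd
        exact (hfact q (hsub q hq).1).1
      have h3 : (S'.filter fun q => q.1 - q.2 = d).card =
          ((S'.filter fun q => q.1 - q.2 = d).image Prod.fst).card := by
        rw [Finset.card_image_of_injOn]
        intro q hq r hr hqr
        have e1 : q.1 - q.2 = d := (Finset.mem_filter.1 hq).2
        have e2 : r.1 - r.2 = d := (Finset.mem_filter.1 hr).2
        have e3 : q.1 = r.1 := hqr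
        apply Prod.ext e3
        rw [e3] at e1
        linear_combination e2 - e1
      rw [h3]
      have h4 := card_root_le e he α d c hα hd0
        ((S'.filter fun q => q.1 - q.2 = d).image Prod.fst) (by
          intro y hy
          obtain ⟨q, hq, rfl⟩ := Finset.mem_image.1 hy
          obtain ⟨hq1, hq2⟩ := Finset.mem_filter.1 hq
          have h5 : q.1 - d = q.2 := by rw [← hq2]; ring
          rw [h5]
          exact (hS q (hsub q hq1).1).2.2.1)
      exact_mod_cast h4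
    calc (S'.card : ℝ) ≤ (S'.image fun q => q.1 - q.2).card * (e : ℝ) := card_fib_le _ _ _ h2
      _ ≤ C₂ * Real.exp (ε / 2 * (2 * H + dg)) * e :=
          mul_le_mul_of_nonneg_right h1 (by positivity)
      _ = C₂ * Real.exp (ε / 2 * dg) * e * Real.exp (ε * H) := by
          rw [show ε / 2 * (2 * H + dg) = ε / 2 * dg + ε * H by ring, Real.exp_add]
          ring
  calc (S.card : ℝ) ≤ (S.image D).card * (C₂ * Real.exp (ε / 2 * dg) * e * Real.exp (ε * H)) :=
        card_fib_le _ _ _ hfib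
    _ ≤ C₁ * (Ideal.absNorm N : ℝ) ^ ε *
        (C₂ * Real.exp (ε / 2 * dg) * e * Real.exp (ε * H)) :=
          mul_le_mul_of_nonneg_right himg (by positivity)
    _ = C₁ * (C₂ * Real.exp (ε / 2 * dg) * e) * (Ideal.absNorm N : ℝ) ^ ε *
        Real.exp (ε * H) := by ring

end AbcOrdM
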