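import Pool.Agent.Work.MP_a793bb_nt.OrdM.DefsM

/-!
# Heights

Proofs. `logHeight₁ s ≤ hs s`, `logHeight₁ (1 + s) ≤ hs s` are in `Fiber.lean` (`logHeight₁_le_hs`,
`logHeight₁_one_add_le_hs`). `ht_f`: `logHeight₁ (s / (1 + s)) = logHeight ![s, 1 + s] ≤ logHeight ![s, 1, 1 + s]`
(`logHeight₁_div_eq_logHeight`, `logHeight_comp_le` as in `logHeight₁_le_hs`). `ht_f'`: `s' / (1 + s) = s' * (1 + s)⁻¹`.
`ht_u`: `logHeight₁_mul_le`, `logHeight₁_inv`. `ht_c`: `logHeight₁_sub_le`, `totalWeight K = d`, `log 2 ≤ 1`.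
`norm_N`: `log_absNorm_numI_le` (used in `Fiber.lean`), multiplicativity of the norm.
-/

set_option autoImplicit false

namespace AbcOrdM

open Finset AbcRadK Pool.Agent.Work.MP_a793bb_nt Pool.Agent.Work.MP_a793bb_nt.BPlus
  NumberField IsDedekindDomain Height

variable {K : Type*} [Field K] [NumberField K]

theorem ht_f (s : K) (n1 : 1 + s ≠ 0) : logHeight₁ (s / (1 + s)) ≤ hs s := by
  rw [logHeight₁_div_eq_logHeight, hs]
  have : (![s, 1 + s] : Fin 2 → K) = ![s, 1, 1 + s] ∘ ![0, 2] := by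
    ext i; fin_cases i <;> simp
  rw [this]
  exact logHeight_comp_le _ _

theorem ht_f' (s s' : K) : logHeight₁ (s' / (1 + s)) ≤ hs s + hs s' := by
  rw [div_eq_mul_inv]
  refine (logHeight₁_mul_le _ _).trans ?_
  rw [logHeight₁_inv]
  have h1 := logHeight₁_le_hs s'
  have h2 := logHeight₁_one_add_le_hs s
  linarith

theorem ht_u (s s' : K) : logHeight₁ ((1 + s) / (1 + s')) ≤ hs s + hs s' := by
  rw [div_eq_mul_inv]
  refine (logHeight₁_mul_le _ _).trans ?_
  rw [logHeight₁_inv]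
  have h1 := logHeight₁_one_add_le_hs s'
  have h2 := logHeight₁_one_add_le_hs s
  linarith

theorem ht_c (u : K) : logHeight₁ (1 - u⁻¹) ≤ logHeight₁ u + (Module.finrank ℚ K : ℝ) := by
  have h1 := logHeight₁_sub_le (1 : K) u⁻¹
  rw [logHeight₁_inv, logHeight₁_one, NumberField.totalWeight_eq_finrank] at h1
  have h2 : Real.log 2 ≤ 1 := by
    have := Real.log_two_lt_d9
    linarith
  have h3 : (0 : ℝ) ≤ (Module.finrank ℚ K : ℝ) := by positivity
  nlinarith

theorem norm_N {u s : K} (hu : 1 - u⁻¹ ≠ 0) (n1 : 1 + s ≠ 0) :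
    (Ideal.absNorm (numI (1 - u⁻¹) * numI (1 + s)) : ℝ) ≤
      Real.exp (logHeight₁ u + (Module.finrank ℚ K : ℝ) + hs s) := by
  have h1 := log_absNorm_numI_le hu
  have h2 := log_absNorm_numI_le n1
  have h3 := ht_c u
  have h4 := logHeight₁_one_add_le_hs s
  have p1 := one_le_absNorm K (numI_ne_bot hu)
  have p2 := one_le_absNorm K (numI_ne_bot n1)
  rw [map_mul]
  push_cast
  rw [← Real.log_le_iff_le_exp (by positivity), Real.log_mul (by positivity) (by positivity)]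
  linarith

end AbcOrdM
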