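import Pool.Agent.Work.MP_a793bb_nt.OrdM.EqnM
import Pool.Agent.Work.MP_a793bb_nt.OrdM.HtM

/-!
# Pairs with given `u`, `C`, `A` and class

Proof. `α = s₁ / (1 + s₁) * t`, `c = 1 - u⁻¹`, `u = (1 + s₁) / (1 + s₁')`, `N = numI c * numI (1 + s₁)`, `A = partI s₁ {e}ᶜ`,
`b p = (ex A p - ex (numI s₁) p - kp p t) / e` (an exact division by `val_A` and `hte`). For `q = (s, s') ∈ P` choose `y` with
`s / (1 + s) = α y ^ e` (`y ≠ 0`) and `z` with `s = z ^ e s'` and put `y' = y / z`, so that `s' / (1 + s) = α y' ^ e`. Then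
`α (y ^ e - y' ^ e) = 1 - ((1 + s) / (1 + s'))⁻¹ = c` (`val_c`), `e kp p y = kp p (s / (1 + s)) - kp p α = ex (numI s) p - ex (numI s₁) p - kp p t
≥ e b p` (`val_f`, `numI (1 + s) = numI (1 + s₁)`, `ex (numI s) p ≥ ex A p` by `val_A`), the same for `y'` (`val_f'`, `PairD.hA`), and
`kp p c - kp p α - e b p = kp p c + ex (numI (1 + s₁)) p - ex A p ≤ ex N p` (`ex_numI'`, `ex_mul`).
Heights: `e logHeight₁ y = logHeight₁ (f / α) ≤ hs s + hs s₁ + logHeight₁ t ≤ 2 L + C_T`, the same for `y'` with `3 L + C_T`.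
The map `(s, s') ↦ (y, y')` is injective: `α y ^ e = s / (1 + s)` determines `s`, then `s' = α y' ^ e (1 + s)`. So `core_count` (with `ε / 8`)
and `norm_N` (`N(N) ≤ exp (3 L + d)`, `ht_u`) give the bound.
-/

set_option autoImplicit false

namespace AbcOrdM

open Finset AbcRadK Pool.Agent.Work.MP_a793bb_nt Pool.Agent.Work.MP_a793bb_nt.BPlus
  NumberField IsDedekindDomain Height

variable {K : Type*} [Field K] [NumberField K]

omit [NumberField K] in
private theorem frac_inj {s r : K} (h1 : 1 + s ≠ 0) (h2 : 1 + r ≠ 0)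
    (h : s / (1 + s) = r / (1 + r)) : s = r := by
  rw [div_eq_div_iff h1 h2] at h
  linear_combination h

private theorem ht_root {e : ℕ} (he : 2 ≤ e) {α y x : K} (hα : α ≠ 0) (h : x = α * y ^ e) :
    logHeight₁ y ≤ logHeight₁ x + logHeight₁ α := by
  have h1 : y ^ e = x * α⁻¹ := by rw [h]; field_simp
  have h2 := logHeight₁_mul_le x α⁻¹
  rw [← h1, logHeight₁_inv, logHeight₁_pow] at h2
  have h3 : 0 ≤ logHeight₁ y := zero_le_logHeight₁ y
  have h4 : (1 : ℝ) ≤ e := by exact_mod_cast (by omega : 1 ≤ e)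
  nlinarith

theorem fib_count (K : Type*) [Field K] [NumberField K] (e : ℕ) (he : 2 ≤ e) (T : Finset K)
    (hT : ∀ t ∈ T, t ≠ 0) (ε : ℝ) (hε : 0 < ε) :
    ∃ C : ℝ, 1 ≤ C ∧ ∀ (L γ : ℝ) (s₁ s₁' t : K), 0 ≤ L → PairD e L γ s₁ s₁' → t ∈ T →
      (∀ p : HeightOneSpectrum (𝓞 K), (e : ℤ) ∣ kp p t) →
      ∀ P : Finset (K × K), (∀ q ∈ P, PairD e L γ q.1 q.2 ∧
        numI (1 + q.1) = numI (1 + s₁) ∧ partI q.1 {e}ᶜ = partI s₁ {e}ᶜ ∧
        (1 + q.1) / (1 + q.2) = (1 + s₁) / (1 + s₁') ∧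
        ∃ y : K, q.1 / (1 + q.1) = s₁ / (1 + s₁) * t * y ^ e) →
      (P.card : ℝ) ≤ C * Real.exp (ε * L) := by
  classical
  obtain ⟨C, hC, hcore⟩ := core_count K e he (ε / 8) (by positivity)
  set dg : ℝ := (Module.finrank ℚ K : ℝ) with hdg
  have hdg0 : 0 ≤ dg := by positivity
  set CT : ℝ := ∑ t ∈ T, logHeight₁ t with hCT
  have hCT0 : 0 ≤ CT := Finset.sum_nonneg fun t _ => zero_le_logHeight₁ t
  have hCTle : ∀ t ∈ T, logHeight₁ t ≤ CT := fun t ht =>
    Finset.single_le_sum (f := fun t => logHeight₁ t) (fun t _ => zero_le_logHeight₁ t) ht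
  refine ⟨C * Real.exp (ε / 8 * (dg + CT)),
    one_le_mul_of_one_le_of_one_le hC (Real.one_le_exp (by positivity)), ?_⟩
  intro L γ s₁ s₁' t hL h₁ htT hte P hP
  have ht0 := hT t htT
  have htle := hCTle t htT
  have hf1 : s₁ / (1 + s₁) ≠ 0 := div_ne_zero h₁.n0 h₁.n1
  set α : K := s₁ / (1 + s₁) * t with hαdef
  have hα : α ≠ 0 := mul_ne_zero hf1 ht0
  obtain ⟨hc1, hc2, hc3⟩ := val_c h₁
  set u : K := (1 + s₁) / (1 + s₁') with hu
  set c : K := 1 - u⁻¹ with hcdef
  set N : Ideal (𝓞 K) := numI c * numI (1 + s₁) with hN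
  have hN0 : N ≠ ⊥ := by
    rw [hN, ← Ideal.zero_eq_bot]
    exact mul_ne_zero (by rw [Ideal.zero_eq_bot]; exact numI_ne_bot hc2)
      (by rw [Ideal.zero_eq_bot]; exact numI_ne_bot h₁.n1)
  set b : HeightOneSpectrum (𝓞 K) → ℤ := fun p =>
    ((ex (partI s₁ {e}ᶜ) p : ℤ) - ex (numI s₁) p - kp p t) / e with hbdef
  have he0 : (0 : ℤ) < e := by exact_mod_cast (by omega : 0 < e)
  have hb : ∀ p, (e : ℤ) * b p = (ex (partI s₁ {e}ᶜ) p : ℤ) - ex (numI s₁) p - kp p t := by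
    intro p
    rw [hbdef]
    apply Int.mul_ediv_cancel'
    have h1 := val_A e h₁.n0 p
    apply dvd_sub _ (hte p)
    rcases h1 with h1 | h1
    · rw [h1, sub_self]
      exact dvd_zero _
    · rw [h1]
      push_cast
      rw [show (ex (partI s₁ {e}ᶜ) p : ℤ) - (ex (partI s₁ {e}ᶜ) p + e) = -e by ring]
      exact dvd_neg.2 dvd_rfl
  have hkα : ∀ p, kp p α = (ex (numI s₁) p : ℤ) - ex (numI (1 + s₁)) p + kp p t := by
    intro p
    rw [hαdef, kp_mul p hf1 ht0, val_f h₁.n0 h₁.n1 p]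
  have hcond : ∀ p : HeightOneSpectrum (𝓞 K), kp p c - kp p α - e * b p ≤ ex N p := by
    intro p
    rw [hb p, hkα p, hN, ex_mul (numI_ne_bot hc2) (numI_ne_bot h₁.n1), ex_numI' hc2]
    push_cast
    omega
  -- the roots
  have hyz : ∀ q ∈ P, ∃ y y' : K, y ≠ 0 ∧ y' ≠ 0 ∧ q.1 / (1 + q.1) = α * y ^ e ∧
      q.2 / (1 + q.1) = α * y' ^ e := by
    intro q hq
    obtain ⟨hq1, -, -, -, y, hy⟩ := hP q hq
    obtain ⟨z, hz⟩ := hq1.hz
    have hz0 : z ≠ 0 := by
      rintro rfl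
      rw [zero_pow (by omega), zero_mul] at hz
      exact hq1.n0 hz
    have hy0 : y ≠ 0 := by
      rintro rfl
      rw [zero_pow (by omega), mul_zero] at hy
      exact div_ne_zero hq1.n0 hq1.n1 hy
    refine ⟨y, y / z, hy0, div_ne_zero hy0 hz0, hy, ?_⟩
    rw [div_pow, mul_div_assoc', ← hy, hz]
    field_simp
  choose! Y Y' hY0 hY0' hY hY' using hyz
  set f : K × K → K × K := fun q => (Y q, Y' q) with hf
  have hinj : Set.InjOn f P := by
    intro q hq r hr hqr
    have e1 : Y q = Y r := congrArg Prod.fst hqr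
    have e2 : Y' q = Y' r := congrArg Prod.snd hqr
    have hq' := (hP q hq).1
    have hr' := (hP r hr).1
    have e3 : q.1 = r.1 := by
      apply frac_inj hq'.n1 hr'.n1
      rw [hY q hq, hY r hr, e1]
    have e4 : q.2 / (1 + q.1) = r.2 / (1 + q.1) := by
      conv_rhs => rw [e3]
      rw [hY' q hq, hY' r hr, e2]
    apply Prod.ext e3
    exact (div_left_inj' hq'.n1).1 e4
  have hlow : ∀ {x y : K} {p : HeightOneSpectrum (𝓞 K)} {m : ℕ}, x ≠ 0 → y ≠ 0 → x = α * y ^ e →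
      kp p x = (m : ℤ) - ex (numI (1 + s₁)) p → ex (partI s₁ {e}ᶜ) p ≤ m → b p ≤ kp p y := by
    intro x y p m _ hy hxy hkx hm
    have h1 : kp p x = kp p α + e * kp p y := by
      rw [hxy, kp_mul p hα (pow_ne_zero _ hy), kp_pow p hy]
    rw [hkx, hkα p] at h1
    have h2 : (e : ℤ) * b p ≤ e * kp p y := by
      rw [hb p]
      omega
    exact le_of_mul_le_mul_left h2 he0
  have hbound := hcore (3 * L + CT) α c b N (by positivity) hα hc2 hN0 hcond (P.image f) (by
    intro r hr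
    obtain ⟨q, hq, rfl⟩ := Finset.mem_image.1 hr
    obtain ⟨hq1, hq2, hq3, hq4, -⟩ := hP q hq
    have hval : α * (Y q ^ e - Y' q ^ e) = c := by
      rw [mul_sub, ← hY q hq, ← hY' q hq, (val_c hq1).1, hq4]
    have hαht : logHeight₁ α ≤ L + CT := by
      rw [hαdef]
      refine (logHeight₁_mul_le _ _).trans ?_
      have := ht_f s₁ h₁.n1
      have := h₁.hL
      linarith
    refine ⟨hY0 q hq, hY0' q hq, hval, ?_, ?_, ?_⟩
    · refine (ht_root he hα (hY q hq)).trans ?_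
      have := ht_f q.1 hq1.n1
      have := hq1.hL
      linarith
    · refine (ht_root he hα (hY' q hq)).trans ?_
      have := ht_f' q.1 q.2
      have := hq1.hL
      have := hq1.hL'
      linarith
    · intro p
      constructor
      · apply hlow (x := q.1 / (1 + q.1)) (m := ex (numI q.1) p)
          (div_ne_zero hq1.n0 hq1.n1) (hY0 q hq) (hY q hq)
        · rw [val_f hq1.n0 hq1.n1 p, hq2]
        · have := val_A e hq1.n0 p
          rw [hq3] at this
          omega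
      · apply hlow (x := q.2 / (1 + q.1)) (m := ex (numI q.2) p)
          (div_ne_zero hq1.n0' hq1.n1) (hY0' q hq) (hY' q hq)
        · rw [val_f' hq1 p, hq2]
        · have := val_A e hq1.n0' p
          rw [← hq1.hA, hq3] at this
          omega)
  rw [Finset.card_image_of_injOn hinj] at hbound
  have hnorm : (Ideal.absNorm N : ℝ) ≤ Real.exp (3 * L + dg) := by
    refine (norm_N hc2 h₁.n1).trans ?_
    apply Real.exp_le_exp.2
    have h1 := ht_u s₁ s₁'
    have h2 := h₁.hL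
    have h3 := h₁.hL'
    rw [← hu] at h1
    linarith
  have hpow : (Ideal.absNorm N : ℝ) ^ (ε / 8) ≤ Real.exp (ε / 8 * (3 * L + dg)) := by
    calc (Ideal.absNorm N : ℝ) ^ (ε / 8) ≤ (Real.exp (3 * L + dg)) ^ (ε / 8) :=
          Real.rpow_le_rpow (by positivity) hnorm (by positivity)
      _ = Real.exp (ε / 8 * (3 * L + dg)) := by
          rw [← Real.exp_mul]
          ring_nf
  calc (P.card : ℝ) ≤ C * (Ideal.absNorm N : ℝ) ^ (ε / 8) * Real.exp (ε / 8 * (3 * L + CT)) :=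
        hbound
    _ ≤ C * Real.exp (ε / 8 * (3 * L + dg)) * Real.exp (ε / 8 * (3 * L + CT)) := by
        apply mul_le_mul_of_nonneg_right _ (Real.exp_pos _).le
        exact mul_le_mul_of_nonneg_left hpow (by linarith)
    _ = C * Real.exp (ε / 8 * (dg + CT)) * Real.exp (ε / 8 * (6 * L)) := by
        rw [mul_assoc, mul_assoc, ← Real.exp_add, ← Real.exp_add]
        ring_nf
    _ ≤ C * Real.exp (ε / 8 * (dg + CT)) * Real.exp (ε * L) := by
        apply mul_le_mul_of_nonneg_left _ (by positivity)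
        apply Real.exp_le_exp.2
        nlinarith

end AbcOrdM
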