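import Pool.Agent.Work.MP_a793bb_nt.OrdM.FibM

/-!
# The number of pairs

Proof. `T` from `selmer_finite K` (`Selmer.lean`; `n = e`), `ε' = ε / 20`. Labels of `q = (s, s')`, each counted on the fibres of the preceding ones:
1. `(numI (1 + s), numI (1 + s'))`: both are in `idealsRad K (exp L) (exp γ)` (`numI y = partI y univ` by `partI_univ`,
   `log_absNorm_radical_partI`, `LP_side_c`), at most `(C₁ exp (ε' L) exp γ) ^ 2` values (`card_idealsRad_le` with `X = exp L`);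
2. `u = (1 + s) / (1 + s')`: its valuations are given by 1 (`val_u`), `logHeight₁ u ≤ 2 L` (`ht_u`): at most `C₂ exp (2 ε' L)` values (`card_same_val`);
3. `A = partI s {e}ᶜ`: divides `numI (1 - u⁻¹) * numI (1 + s)` (`val_c`, `ex_numI'`, `ex_mul`), an ideal which depends only on 1, 2 and has norm at most
   `exp (3 L + d)` (`norm_N`): at most `C₃ exp (ε' (3 L + d))` values (`card_dvd_le`);
4. the element `t ∈ T` with `(s / (1 + s)) / (s₁ / (1 + s₁)) = t x ^ e`, where `(s₁, s₁')` is a fixed element of the fibre: the valuations of this quotient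
   are `ex (numI s) p - ex (numI s₁) p`, divisible by `e` by `val_f`, `val_A`; hence `e ∣ kp p t` as well. At most `#T` values;
5. the remaining fibre has at most `C₄ exp (ε' L)` elements by `fib_count`.
(`Finset.card_le_mul_card_image` or `Finset.card_eq_sum_card_fiberwise` at each step.)
-/

set_option autoImplicit false

namespace AbcOrdM

open Finset AbcRadK Pool.Agent.Work.MP_a793bb_nt Pool.Agent.Work.MP_a793bb_nt.BPlus
  NumberField IsDedekindDomain Height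

variable {K : Type*} [Field K] [NumberField K]

/-- counting by fibres -/
private theorem card_le_fib {α β : Type*} [DecidableEq β] (P : Finset α) (t : Finset β) (f : α → β)
    {M1 M2 : ℝ} (h0 : 0 ≤ M2) (hf : ∀ a ∈ P, f a ∈ t) (h1 : (t.card : ℝ) ≤ M1)
    (h2 : ∀ b ∈ t, ((P.filter (fun a => f a = b)).card : ℝ) ≤ M2) : (P.card : ℝ) ≤ M1 * M2 := by
  have h3 := Finset.card_le_mul_card_image_of_maps_to hf ⌊M2⌋₊ (fun b hb => Nat.le_floor (h2 b hb))
  calc (P.card : ℝ) ≤ ((⌊M2⌋₊ * t.card : ℕ) : ℝ) := by exact_mod_cast h3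
    _ = (⌊M2⌋₊ : ℝ) * t.card := by push_cast; ring
    _ ≤ M2 * M1 := by
        have h4 := Nat.floor_le h0
        have h5 : (0 : ℝ) ≤ (t.card : ℝ) := Nat.cast_nonneg _
        exact mul_le_mul h4 h1 h5 h0
    _ = M1 * M2 := by ring

private theorem dvd_of_ex {I J : Ideal (𝓞 K)} (hI : I ≠ ⊥) (hJ : J ≠ ⊥)
    (h : ∀ p, ex I p ≤ ex J p) : I ∣ J := by
  classical
  set S := (finite_dvd hI).toFinset ∪ (finite_dvd hJ).toFinset with hS
  have h1 := prod_ex hI S (fun p hp => by simp [hS, hp])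
  have h2 := prod_ex hJ S (fun p hp => by simp [hS, hp])
  rw [← h1, ← h2]
  exact Finset.prod_dvd_prod_of_dvd _ _ fun p _ => pow_dvd_pow _ (h p)

private theorem numI_mem {y : K} (hy : y ≠ 0) {L γ : ℝ} (h1 : LP y Set.univ ≤ L)
    (h2 : LR y Set.univ ≤ γ) : numI y ∈ idealsRad K (Real.exp L) (Real.exp γ) := by
  rw [← partI_univ hy]
  exact partI_mem hy Set.univ (Real.exp_pos _) (by rw [Real.log_exp]; exact h1) h2

/-- the valuations of the quotients are divisible by `e` -/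
private theorem dvd_quot {e : ℕ} {L γ : ℝ} {q q₁ : K × K} (hp : PairD e L γ q.1 q.2)
    (hp₁ : PairD e L γ q₁.1 q₁.2) (h1 : numI (1 + q.1) = numI (1 + q₁.1))
    (h2 : partI q.1 {e}ᶜ = partI q₁.1 {e}ᶜ) (p : HeightOneSpectrum (𝓞 K)) :
    (e : ℤ) ∣ kp p ((q.1 / (1 + q.1)) / (q₁.1 / (1 + q₁.1))) := by
  have hf : q.1 / (1 + q.1) ≠ 0 := div_ne_zero hp.n0 hp.n1
  have hf₁ : q₁.1 / (1 + q₁.1) ≠ 0 := div_ne_zero hp₁.n0 hp₁.n1
  rw [kp_div p hf hf₁, val_f hp.n0 hp.n1, val_f hp₁.n0 hp₁.n1, h1]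
  have b1 := val_A e hp.n0 p
  have b2 := val_A e hp₁.n0 p
  rw [h2] at b1
  have b3 : (ex (numI q.1) p : ℤ) - ex (numI q₁.1) p = 0 ∨
      (ex (numI q.1) p : ℤ) - ex (numI q₁.1) p = e ∨
      (ex (numI q.1) p : ℤ) - ex (numI q₁.1) p = -e := by
    rcases b1 with b1 | b1 <;> rcases b2 with b2 | b2 <;> omega
  have b4 : (ex (numI q.1) p : ℤ) - (ex (numI (1 + q₁.1)) p : ℤ) -
      ((ex (numI q₁.1) p : ℤ) - (ex (numI (1 + q₁.1)) p : ℤ)) =
      (ex (numI q.1) p : ℤ) - ex (numI q₁.1) p := by ring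
  rw [b4]
  rcases b3 with b3 | b3 | b3
  · rw [b3]; exact dvd_zero _
  · rw [b3]
  · rw [b3]; exact (dvd_neg).mpr dvd_rfl

theorem pair_count (K : Type*) [Field K] [NumberField K] (e : ℕ) (he : 2 ≤ e) (ε : ℝ)
    (hε : 0 < ε) :
    ∃ C : ℝ, 1 ≤ C ∧ ∀ L γ : ℝ, 0 ≤ L → 0 ≤ γ → ∀ P : Finset (K × K),
      (∀ q ∈ P, PairD e L γ q.1 q.2) →
      (P.card : ℝ) ≤ C * Real.exp (ε * L) * Real.exp (2 * γ) := by
  classical
  obtain ⟨T, hTf, hT0, hT⟩ := selmer_finite K (n := e) (by omega)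
  obtain ⟨δ, hδ⟩ : ∃ δ : ℝ, δ = ε / 20 := ⟨_, rfl⟩
  have hδ0 : 0 < δ := by rw [hδ]; positivity
  obtain ⟨C₁, hC₁, h1⟩ := card_idealsRad_le K hδ0
  obtain ⟨C₂, hC₂, h2⟩ := card_same_val K δ hδ0
  obtain ⟨C₃, hC₃, h3⟩ := card_dvd_le K hδ0
  obtain ⟨C₄, hC₄, h4⟩ := fib_count K e he hTf.toFinset
    (fun t ht => hT0 t (hTf.mem_toFinset.1 ht)) δ hδ0
  obtain ⟨d, hd⟩ : ∃ d : ℝ, d = (Module.finrank ℚ K : ℝ) := ⟨_, rfl⟩
  have hd0 : 0 ≤ d := by rw [hd]; positivity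
  obtain ⟨m, hm⟩ : ∃ m : ℝ, m = (hTf.toFinset.card : ℝ) + 1 := ⟨_, rfl⟩
  have hm1 : 1 ≤ m := by
    rw [hm]
    have : (0 : ℝ) ≤ (hTf.toFinset.card : ℝ) := Nat.cast_nonneg _
    linarith
  refine ⟨(C₁ * C₁) * (C₂ * ((C₃ * Real.exp (δ * d)) * (m * C₄))), ?_, ?_⟩
  · have e1 : 1 ≤ Real.exp (δ * d) := Real.one_le_exp (by positivity)
    exact one_le_mul_of_one_le_of_one_le (one_le_mul_of_one_le_of_one_le hC₁ hC₁)
      (one_le_mul_of_one_le_of_one_le hC₂ (one_le_mul_of_one_le_of_one_le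
        (one_le_mul_of_one_le_of_one_le hC₃ e1) (one_le_mul_of_one_le_of_one_le hm1 hC₄)))
  intro L γ hL hγ P hP
  -- step 4
  have step4 : ∀ (Q : Finset (K × K)), (∀ q ∈ Q, PairD e L γ q.1 q.2) →
      (∀ q ∈ Q, ∀ q' ∈ Q, numI (1 + q.1) = numI (1 + q'.1) ∧
        (1 + q.1) / (1 + q.2) = (1 + q'.1) / (1 + q'.2) ∧
        partI q.1 {e}ᶜ = partI q'.1 {e}ᶜ) →
      (Q.card : ℝ) ≤ m * (C₄ * Real.exp (δ * L)) := by
    intro Q hQ hQ2
    rcases Q.eq_empty_or_nonempty with hQe | ⟨q₁, hq₁⟩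
    · rw [hQe]
      simp only [Finset.card_empty, Nat.cast_zero]
      positivity
    have hp₁ := hQ q₁ hq₁
    have hf₁ : q₁.1 / (1 + q₁.1) ≠ 0 := div_ne_zero hp₁.n0 hp₁.n1
    have hex : ∀ q : K × K, ∃ t : K, q ∈ Q → t ∈ hTf.toFinset ∧
        ∃ x : K, x ≠ 0 ∧ (q.1 / (1 + q.1)) / (q₁.1 / (1 + q₁.1)) = t * x ^ e := by
      intro q
      by_cases hq : q ∈ Q
      · have hp := hQ q hq
        have hf : q.1 / (1 + q.1) ≠ 0 := div_ne_zero hp.n0 hp.n1
        obtain ⟨t, ht, x, hx, hxe⟩ := hT ((q.1 / (1 + q.1)) / (q₁.1 / (1 + q₁.1)))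
          (div_ne_zero hf hf₁) (dvd_quot hp hp₁ (hQ2 q hq q₁ hq₁).1 (hQ2 q hq q₁ hq₁).2.2)
        exact ⟨t, fun _ => ⟨hTf.mem_toFinset.2 ht, x, hx, hxe⟩⟩
      · exact ⟨0, fun h => absurd h hq⟩
    choose f hf using hex
    refine card_le_fib Q hTf.toFinset f (by positivity) (fun q hq => (hf q hq).1) ?_ ?_
    · rw [hm]; linarith
    · intro t ht
      have ht0 : t ≠ 0 := hT0 t (hTf.mem_toFinset.1 ht)
      rcases (Q.filter (fun q => f q = t)).eq_empty_or_nonempty with hE | ⟨q₂, hq₂⟩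
      · rw [hE]
        simp only [Finset.card_empty, Nat.cast_zero]
        positivity
      refine h4 L γ q₁.1 q₁.2 t hL hp₁ ht ?_ _ ?_
      · intro p
        obtain ⟨hq₂Q, hq₂t⟩ := Finset.mem_filter.1 hq₂
        obtain ⟨-, x, hx, hxe⟩ := hf q₂ hq₂Q
        rw [hq₂t] at hxe
        have e1 := dvd_quot (hQ q₂ hq₂Q) hp₁ (hQ2 q₂ hq₂Q q₁ hq₁).1 (hQ2 q₂ hq₂Q q₁ hq₁).2.2 p
        rw [hxe, kp_mul p ht0 (pow_ne_zero _ hx), kp_pow p hx] at e1
        exact (dvd_add_left (dvd_mul_right _ _)).1 e1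
      · intro q hq
        obtain ⟨hqQ, hqt⟩ := Finset.mem_filter.1 hq
        obtain ⟨-, x, hx, hxe⟩ := hf q hqQ
        rw [hqt] at hxe
        obtain ⟨a1, a2, a3⟩ := hQ2 q hqQ q₁ hq₁
        refine ⟨hQ q hqQ, a1, a3, a2, x, ?_⟩
        rw [div_eq_iff hf₁] at hxe
        rw [hxe]
        ring
  -- step 3
  have step3 : ∀ (Q : Finset (K × K)), (∀ q ∈ Q, PairD e L γ q.1 q.2) →
      (∀ q ∈ Q, ∀ q' ∈ Q, numI (1 + q.1) = numI (1 + q'.1) ∧
        (1 + q.1) / (1 + q.2) = (1 + q'.1) / (1 + q'.2)) →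
      (Q.card : ℝ) ≤ (C₃ * Real.exp (δ * (3 * L + d))) * (m * (C₄ * Real.exp (δ * L))) := by
    intro Q hQ hQ2
    rcases Q.eq_empty_or_nonempty with hQe | ⟨q₁, hq₁⟩
    · rw [hQe]
      simp only [Finset.card_empty, Nat.cast_zero]
      positivity
    have hp₁ := hQ q₁ hq₁
    have hv₁ := val_c hp₁
    obtain ⟨N, hN⟩ : ∃ N : Ideal (𝓞 K), N =
        numI (1 - ((1 + q₁.1) / (1 + q₁.2))⁻¹) * numI (1 + q₁.1) := ⟨_, rfl⟩
    have hN0 : N ≠ ⊥ := by
      rw [hN]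
      exact mul_ne_zero (numI_ne_bot hv₁.2.1) (numI_ne_bot hp₁.n1)
    have hNn : (Ideal.absNorm N : ℝ) ≤ Real.exp (3 * L + d) := by
      rw [hN]
      refine (norm_N hv₁.2.1 hp₁.n1).trans (Real.exp_le_exp.2 ?_)
      have e1 := ht_u q₁.1 q₁.2
      have e2 := hp₁.hL
      have e3 := hp₁.hL'
      rw [hd]
      linarith
    obtain ⟨f, hf⟩ : ∃ f : K × K → Ideal (𝓞 K), ∀ q, f q = partI q.1 {e}ᶜ := ⟨_, fun _ => rfl⟩
    have hdiv : ∀ q ∈ Q, f q ∣ N := by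
      intro q hq
      have hp := hQ q hq
      have hv := val_c hp
      rw [hf]
      refine dvd_of_ex (partI_ne_bot hp.n0 _) hN0 fun p => ?_
      have e1 := hv.2.2 p
      rw [(hQ2 q hq q₁ hq₁).2, (hQ2 q hq q₁ hq₁).1] at e1
      rw [hN, ex_mul (numI_ne_bot hv₁.2.1) (numI_ne_bot hp₁.n1), ex_numI' hv₁.2.1]
      omega
    refine card_le_fib Q (h3 N hN0).1.toFinset f (by positivity)
      (fun q hq => (Set.Finite.mem_toFinset _).2 (hdiv q hq)) ?_ ?_
    · rw [← Set.ncard_eq_toFinset_card _ (h3 N hN0).1]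
      calc ({I : Ideal (𝓞 K) | I ∣ N}.ncard : ℝ)
          ≤ C₃ * (Ideal.absNorm N : ℝ) ^ δ := (h3 N hN0).2
        _ ≤ C₃ * (Real.exp (3 * L + d)) ^ δ := by
            gcongr
        _ = C₃ * Real.exp (δ * (3 * L + d)) := by
            rw [← Real.exp_mul, mul_comm (3 * L + d) δ]
    · intro A hA
      refine step4 _ (fun q hq => hQ q (Finset.mem_filter.1 hq).1) fun q hq q' hq' => ?_
      obtain ⟨hq1, hq2⟩ := Finset.mem_filter.1 hq
      obtain ⟨hq1', hq2'⟩ := Finset.mem_filter.1 hq'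
      have e1 := hq2.trans hq2'.symm
      rw [hf, hf] at e1
      exact ⟨(hQ2 q hq1 q' hq1').1, (hQ2 q hq1 q' hq1').2, e1⟩
  -- step 2
  have step2 : ∀ (Q : Finset (K × K)), (∀ q ∈ Q, PairD e L γ q.1 q.2) →
      (∀ q ∈ Q, ∀ q' ∈ Q, numI (1 + q.1) = numI (1 + q'.1) ∧
        numI (1 + q.2) = numI (1 + q'.2)) →
      (Q.card : ℝ) ≤ (C₂ * Real.exp (δ * (2 * L))) *
        ((C₃ * Real.exp (δ * (3 * L + d))) * (m * (C₄ * Real.exp (δ * L)))) := by
    intro Q hQ hQ2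
    refine card_le_fib Q (Q.image (fun q => (1 + q.1) / (1 + q.2)))
      (fun q => (1 + q.1) / (1 + q.2)) (by positivity)
      (fun q hq => Finset.mem_image_of_mem _ hq) ?_ ?_
    · refine h2 (2 * L) (by linarith) _ ?_ ?_
      · intro x hx
        obtain ⟨q, hq, rfl⟩ := Finset.mem_image.1 hx
        have hp := hQ q hq
        refine ⟨div_ne_zero hp.n1 hp.n1', ?_⟩
        have e1 := ht_u q.1 q.2
        have e2 := hp.hL
        have e3 := hp.hL'
        linarith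
      · intro x hx y hy p
        obtain ⟨q, hq, rfl⟩ := Finset.mem_image.1 hx
        obtain ⟨q', hq', rfl⟩ := Finset.mem_image.1 hy
        rw [val_u (hQ q hq), val_u (hQ q' hq'), (hQ2 q hq q' hq').1, (hQ2 q hq q' hq').2]
    · intro u hu
      refine step3 _ (fun q hq => hQ q (Finset.mem_filter.1 hq).1) fun q hq q' hq' => ?_
      obtain ⟨hq1, hq2⟩ := Finset.mem_filter.1 hq
      obtain ⟨hq1', hq2'⟩ := Finset.mem_filter.1 hq'
      exact ⟨(hQ2 q hq1 q' hq1').1, hq2.trans hq2'.symm⟩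
  -- step 1
  set S := (finite_idealsRad (K := K) (Real.exp L) (Real.exp γ)).toFinset with hS
  have hScard : (S.card : ℝ) ≤ C₁ * Real.exp (δ * L) * Real.exp γ := by
    rw [hS, ← Set.ncard_eq_toFinset_card _ (finite_idealsRad (K := K) (Real.exp L) (Real.exp γ))]
    refine (h1 (Real.exp L) (Real.exp γ) (Real.one_le_exp hL) (Real.exp_pos _).le).trans ?_
    rw [← Real.exp_mul, mul_comm L δ]
  have hmem : ∀ q ∈ P, (numI (1 + q.1), numI (1 + q.2)) ∈ S ×ˢ S := by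
    intro q hq
    have hp := hP q hq
    rw [Finset.mem_product, hS]
    simp only [Set.Finite.mem_toFinset]
    exact ⟨numI_mem hp.n1 ((LP_side_c hp.n1 _).trans hp.hL) hp.hC,
      numI_mem hp.n1' ((LP_side_c hp.n1' _).trans hp.hL') hp.hC'⟩
  have hmain := card_le_fib P (S ×ˢ S) (fun q => (numI (1 + q.1), numI (1 + q.2)))
    (M1 := (C₁ * Real.exp (δ * L) * Real.exp γ) * (C₁ * Real.exp (δ * L) * Real.exp γ))
    (M2 := (C₂ * Real.exp (δ * (2 * L))) *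
        ((C₃ * Real.exp (δ * (3 * L + d))) * (m * (C₄ * Real.exp (δ * L)))))
    (by positivity) hmem (by
      rw [Finset.card_product]
      push_cast
      have e1 : (0 : ℝ) ≤ (S.card : ℝ) := Nat.cast_nonneg _
      exact mul_le_mul hScard hScard e1 (by positivity)) (by
      intro b hb
      refine step2 _ (fun q hq => hP q (Finset.mem_filter.1 hq).1) fun q hq q' hq' => ?_
      obtain ⟨hq1, hq2⟩ := Finset.mem_filter.1 hq
      obtain ⟨hq1', hq2'⟩ := Finset.mem_filter.1 hq'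
      have e1 : (numI (1 + q.1), numI (1 + q.2)) = (numI (1 + q'.1), numI (1 + q'.2)) :=
        hq2.trans hq2'.symm
      rw [Prod.mk.injEq] at e1
      exact e1)
  refine hmain.trans ?_
  have hexp : (C₁ * Real.exp (δ * L) * Real.exp γ) * (C₁ * Real.exp (δ * L) * Real.exp γ) *
      ((C₂ * Real.exp (δ * (2 * L))) *
        ((C₃ * Real.exp (δ * (3 * L + d))) * (m * (C₄ * Real.exp (δ * L))))) =
      (C₁ * C₁) * (C₂ * ((C₃ * Real.exp (δ * d)) * (m * C₄))) *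
        Real.exp (8 * δ * L) * Real.exp (2 * γ) := by
    have e1 : Real.exp (8 * δ * L) = Real.exp (δ * L) * Real.exp (δ * L) *
        Real.exp (δ * (2 * L)) * Real.exp (δ * (3 * L)) * Real.exp (δ * L) := by
      rw [← Real.exp_add, ← Real.exp_add, ← Real.exp_add, ← Real.exp_add]
      congr 1
      ring
    have e2 : Real.exp (δ * (3 * L + d)) = Real.exp (δ * (3 * L)) * Real.exp (δ * d) := by
      rw [← Real.exp_add]
      congr 1
      ring
    have e3 : Real.exp (2 * γ) = Real.exp γ * Real.exp γ := by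
      rw [← Real.exp_add]
      congr 1
      ring
    rw [e1, e2, e3]
    ring
  rw [hexp]
  have hle : Real.exp (8 * δ * L) ≤ Real.exp (ε * L) := by
    rw [Real.exp_le_exp, hδ]
    nlinarith
  have hC0 : 0 ≤ (C₁ * C₁) * (C₂ * ((C₃ * Real.exp (δ * d)) * (m * C₄))) := by positivity
  exact mul_le_mul_of_nonneg_right (mul_le_mul_of_nonneg_left hle hC0) (Real.exp_pos _).le

end AbcOrdM
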